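import Pool.Agent.Lib.MP_d57abb_nt.AS.Single
import Pool.Agent.Lib.MP_d57abb_nt.AS.ConvK

/-!
# The averages over the primes at one level

The bound of `AS/AvgK` at one level, with all the parameters in the order in which they are chosen.
-/

namespace Pool.Agent.Lib.MP_d57abb_nt.AX

open Finset Pool.Agent.Lib.MP_d57abb_nt Pool.Agent.Lib.MP_d57abb_nt.TA Pool.Agent.Lib.MP_d57abb_nt.TZ Pool.Agent.Lib.MP_d57abb_nt.AS

private theorem AvgAt_mean' {ι : Type*} (S : Finset ι) (f : ι → ℂ) {ε : ℝ} (hε : 0 ≤ ε)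
    (h : ∀ p ∈ S, ‖f p‖ ≤ ε) : ‖(∑ p ∈ S, f p) / (S.card : ℂ)‖ ≤ ε := by
  rw [norm_div, Complex.norm_natCast]
  rcases Nat.eq_zero_or_pos S.card with h0 | h0
  · rw [h0, Nat.cast_zero, div_zero]
    exact hε
  · rw [div_le_iff₀ (by exact_mod_cast h0)]
    refine (norm_sum_le _ _).trans ?_
    refine (Finset.sum_le_sum h).trans ?_
    rw [Finset.sum_const, nsmul_eq_mul, mul_comm]

open Classical in
private theorem AvgAt_PS_mem {P p : ℕ} (hp : p ∈ PS P) : SP p := by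
  rw [PS, mem_filter] at hp
  exact hp.2

private theorem AvgAt_pow {a p j : ℕ} (h : a + p ^ 2 ≤ j) : 2 ^ a * p ^ 2 < 4 ^ j := by
  have h1 : p ^ 2 < 2 ^ (p ^ 2) := Nat.lt_two_pow_self
  calc 2 ^ a * p ^ 2 < 2 ^ a * 2 ^ (p ^ 2) := Nat.mul_lt_mul_of_pos_left h1 (by positivity)
    _ = 2 ^ (a + p ^ 2) := by rw [pow_add]
    _ ≤ 4 ^ (a + p ^ 2) := Nat.pow_le_pow_left (by norm_num) _
    _ ≤ 4 ^ j := Nat.pow_le_pow_right (by norm_num) h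

private theorem AvgAt_fixed {q : ℕ} {z : ℂ} (hzn : ‖z‖ = 1) {φ ψ : ℝ → ℝ} {a k : ℕ} {La L : ℝ}
    (hφ : PW φ a La) (hψ : PW ψ k L) {ε η₁ δ : ℝ} (hε : 0 ≤ ε) {E ρ M : ℕ}
    (hconv : ∀ p : ℕ, SP p → ∃ j₀ : ℕ, ∀ j : ℕ, j₀ ≤ j →
      ‖(p : ℂ) * GK φ ψ z (a + k + 9) p (j + (a + k + 1)) -
        ∑ l ∈ range (M + 1), ∑ s ∈ range (2 * (a + k + 1) + 1), (p : ℂ) *
          GP (fun v => gl M l (mu1 v)) (Whs φ ψ (a + k + 1) s (ul M l)) z (k + 5) p (j + s)‖ ≤ ε)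
    (hsing : ∀ l s, l ∈ range (M + 1) → s ∈ range (2 * (a + k + 1) + 1) → ∃ i₀ : ℕ, ∀ i : ℕ, i₀ ≤ i →
      ‖(∑ p ∈ PS (PP E ρ), (p : ℂ) * GP (fun v => gl M l (mu1 v))
        (Whs φ ψ (a + k + 1) s (ul M l)) z (k + 5) p (i + (ρ - (k + 5)))) /
          ((PS (PP E ρ)).card : ℂ)‖ ≤ η₁ * (1 + MI q E ρ (2 ^ i) * ρ / (δ * 4 ^ ρ))) :
    ∃ i₀ : ℕ, ∀ i : ℕ, i₀ ≤ i →
      ‖(∑ p ∈ PS (PP E ρ), SK a φ ψ z (4 ^ (i + (1 + (ρ - (k + 5)) + (a + k + 1))) / p)) /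
        ((PS (PP E ρ)).card : ℂ)‖ ≤ ε + ∑ s ∈ range (2 * (a + k + 1) + 1),
          ((M + 1) * η₁) * (1 + MI q E ρ (2 ^ (i + s + 1)) * ρ / (δ * 4 ^ ρ)) := by
  choose! j₀ hj₀ using hconv
  choose! i₀ hi₀ using hsing
  refine ⟨(PS (PP E ρ)).sup (fun p => j₀ p + (a + p ^ 2)) +
    ∑ l ∈ range (M + 1), ∑ s ∈ range (2 * (a + k + 1) + 1), i₀ l s, fun i hi => ?_⟩
  obtain ⟨j, hj⟩ : ∃ j : ℕ, j = i + 1 + (ρ - (k + 5)) := ⟨_, rfl⟩
  have hjj : i + (1 + (ρ - (k + 5)) + (a + k + 1)) = j + (a + k + 1) := by omega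
  rw [hjj]
  have hpj : ∀ p ∈ PS (PP E ρ), j₀ p + (a + p ^ 2) ≤ j := by
    intro p hp
    have := Finset.le_sup (f := fun p => j₀ p + (a + p ^ 2)) hp
    have h2 : j₀ p + (a + p ^ 2) ≤ (PS (PP E ρ)).sup (fun p => j₀ p + (a + p ^ 2)) := this
    omega
  have hls : ∀ l ∈ range (M + 1), ∀ s ∈ range (2 * (a + k + 1) + 1), i₀ l s ≤ i := by
    intro l hl s hs
    have h1 : i₀ l s ≤ ∑ s ∈ range (2 * (a + k + 1) + 1), i₀ l s :=
      Finset.single_le_sum (f := fun s => i₀ l s) (fun _ _ => Nat.zero_le _) hs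
    have h2 : ∑ s ∈ range (2 * (a + k + 1) + 1), i₀ l s ≤
        ∑ l ∈ range (M + 1), ∑ s ∈ range (2 * (a + k + 1) + 1), i₀ l s :=
      Finset.single_le_sum (f := fun l => ∑ s ∈ range (2 * (a + k + 1) + 1), i₀ l s)
        (fun _ _ => Nat.zero_le _) hl
    omega
  have e1 : ∀ p ∈ PS (PP E ρ), z ^ 2 * SK a φ ψ z (4 ^ (j + (a + k + 1)) / p) =
      (p : ℂ) * GK φ ψ z (a + k + 9) p (j + (a + k + 1)) := by
    intro p hp
    have h1 := hpj p hp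
    exact (dilK hφ hψ z (AvgAt_PS_mem hp) (AvgAt_pow (by omega)) (by omega)).symm
  have e2 : ‖(∑ p ∈ PS (PP E ρ), SK a φ ψ z (4 ^ (j + (a + k + 1)) / p)) /
      ((PS (PP E ρ)).card : ℂ)‖ =
      ‖(∑ p ∈ PS (PP E ρ), (p : ℂ) * GK φ ψ z (a + k + 9) p (j + (a + k + 1))) /
        ((PS (PP E ρ)).card : ℂ)‖ := by
    rw [← Finset.sum_congr rfl e1, ← Finset.mul_sum, mul_div_assoc, norm_mul, norm_pow, hzn,
      one_pow, one_mul]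
  rw [e2]
  have e3 : (∑ p ∈ PS (PP E ρ), (p : ℂ) * GK φ ψ z (a + k + 9) p (j + (a + k + 1))) /
        ((PS (PP E ρ)).card : ℂ) =
      (∑ p ∈ PS (PP E ρ), ((p : ℂ) * GK φ ψ z (a + k + 9) p (j + (a + k + 1)) -
        ∑ l ∈ range (M + 1), ∑ s ∈ range (2 * (a + k + 1) + 1), (p : ℂ) *
          GP (fun v => gl M l (mu1 v)) (Whs φ ψ (a + k + 1) s (ul M l)) z (k + 5) p (j + s))) /
        ((PS (PP E ρ)).card : ℂ) +
      ∑ l ∈ range (M + 1), ∑ s ∈ range (2 * (a + k + 1) + 1), (∑ p ∈ PS (PP E ρ), (p : ℂ) *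
          GP (fun v => gl M l (mu1 v)) (Whs φ ψ (a + k + 1) s (ul M l)) z (k + 5) p (j + s)) /
        ((PS (PP E ρ)).card : ℂ) := by
    have f1 : ∑ l ∈ range (M + 1), ∑ s ∈ range (2 * (a + k + 1) + 1),
        (∑ p ∈ PS (PP E ρ), (p : ℂ) * GP (fun v => gl M l (mu1 v))
          (Whs φ ψ (a + k + 1) s (ul M l)) z (k + 5) p (j + s)) / ((PS (PP E ρ)).card : ℂ) =
        (∑ p ∈ PS (PP E ρ), ∑ l ∈ range (M + 1), ∑ s ∈ range (2 * (a + k + 1) + 1), (p : ℂ) *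
          GP (fun v => gl M l (mu1 v)) (Whs φ ψ (a + k + 1) s (ul M l)) z (k + 5) p (j + s)) /
          ((PS (PP E ρ)).card : ℂ) := by
      rw [Finset.sum_comm (s := PS (PP E ρ)), Finset.sum_div]
      refine Finset.sum_congr rfl fun l _ => ?_
      rw [Finset.sum_comm (s := PS (PP E ρ)), Finset.sum_div]
    rw [f1, ← add_div, ← Finset.sum_add_distrib]
    refine congrArg (fun w => w / ((PS (PP E ρ)).card : ℂ)) ?_
    refine Finset.sum_congr rfl fun p _ => ?_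
    rw [sub_add_cancel]
  rw [e3]
  refine (norm_add_le _ _).trans (add_le_add ?_ ?_)
  · refine AvgAt_mean' _ _ hε fun p hp => ?_
    exact hj₀ p (AvgAt_PS_mem hp) j (by have := hpj p hp; omega)
  · have g1 : ∀ l ∈ range (M + 1), ∀ s ∈ range (2 * (a + k + 1) + 1),
        ‖(∑ p ∈ PS (PP E ρ), (p : ℂ) * GP (fun v => gl M l (mu1 v))
          (Whs φ ψ (a + k + 1) s (ul M l)) z (k + 5) p (j + s)) / ((PS (PP E ρ)).card : ℂ)‖ ≤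
        η₁ * (1 + MI q E ρ (2 ^ (i + s + 1)) * ρ / (δ * 4 ^ ρ)) := by
      intro l hl s hs
      have h1 := hi₀ l s hl hs (i + s + 1) (by have := hls l hl s hs; omega)
      have h2 : i + s + 1 + (ρ - (k + 5)) = j + s := by omega
      rw [h2] at h1
      exact h1
    calc ‖∑ l ∈ range (M + 1), ∑ s ∈ range (2 * (a + k + 1) + 1), (∑ p ∈ PS (PP E ρ), (p : ℂ) *
          GP (fun v => gl M l (mu1 v)) (Whs φ ψ (a + k + 1) s (ul M l)) z (k + 5) p (j + s)) /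
        ((PS (PP E ρ)).card : ℂ)‖
        ≤ ∑ l ∈ range (M + 1), ∑ s ∈ range (2 * (a + k + 1) + 1),
          η₁ * (1 + MI q E ρ (2 ^ (i + s + 1)) * ρ / (δ * 4 ^ ρ)) := by
          refine (norm_sum_le _ _).trans (Finset.sum_le_sum fun l hl => ?_)
          exact (norm_sum_le _ _).trans (Finset.sum_le_sum fun s hs => g1 l hl s hs)
      _ = ∑ s ∈ range (2 * (a + k + 1) + 1),
          ((M + 1) * η₁) * (1 + MI q E ρ (2 ^ (i + s + 1)) * ρ / (δ * 4 ^ ρ)) := by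
          rw [Finset.sum_const, card_range, nsmul_eq_mul, Finset.mul_sum]
          refine Finset.sum_congr rfl fun s _ => ?_
          push_cast
          ring

private theorem AvgAt_min {ι : Type*} (s : Finset ι) (f : ι → ℝ) (h : ∀ i ∈ s, 0 < f i) :
    ∃ δ : ℝ, 0 < δ ∧ ∀ i ∈ s, δ ≤ f i := by
  classical
  induction s using Finset.induction_on with
  | empty => exact ⟨1, one_pos, fun i hi => absurd hi (Finset.notMem_empty i)⟩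
  | insert a s ha ih =>
    obtain ⟨δ, h0, h1⟩ := ih fun i hi => h i (Finset.mem_insert_of_mem hi)
    refine ⟨min δ (f a), lt_min h0 (h a (Finset.mem_insert_self a s)), fun i hi => ?_⟩
    rcases Finset.mem_insert.1 hi with rfl | hi
    · exact min_le_right _ _
    · exact (min_le_left _ _).trans (h1 i hi)

/-- the average over the primes at the level `i` -/
theorem avg_at {q : ℕ} (hq : 1 ≤ q) {z : ℂ} (hz : z ^ q = 1) (hz1 : z ≠ 1) {φ ψ : ℝ → ℝ} {a k : ℕ} {La L : ℝ}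
    (hφ : PW φ a La) (hψ : PW ψ k L) {ε : ℝ} (hε : 0 < ε) :
    ∃ e₀ : ℕ, ∀ e : ℕ, e₀ ≤ e → ∃ δ₀ : ℝ, 0 < δ₀ ∧ ∃ R : ℕ, ∀ ρ : ℕ, R ≤ ρ → ∃ i₀ : ℕ, ∀ i : ℕ, i₀ ≤ i →
      ∀ δ : ℝ, 0 < δ → δ ≤ δ₀ →
      ‖(∑ p ∈ PS (PP (2 * e) ρ), SK a φ ψ z (4 ^ (i + (1 + (ρ - (k + 5)) + (a + k + 1))) / p)) /
        ((PS (PP (2 * e) ρ)).card : ℂ)‖ ≤ ε / 2 + ε / (4 * (2 * (a + k + 1) + 1 : ℕ)) *
          ∑ s ∈ range (2 * (a + k + 1) + 1),
            (1 + MI q (2 * e) ρ (2 ^ (i + s + 1)) * ρ / (δ * 4 ^ ρ)) := by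
  have hzn : ‖z‖ = 1 := by
    have h1 : ‖z‖ ^ q = 1 := by rw [← norm_pow, hz, norm_one]
    exact (pow_eq_one_iff_of_nonneg (norm_nonneg _) (by omega)).1 h1
  have hε2 : 0 < ε / 2 := by positivity
  obtain ⟨M, hM1, hM⟩ := convK hq hz hφ hψ hε2
  have hconv := hM M le_rfl
  obtain ⟨n, hn⟩ : ∃ n : ℕ, n = 2 * (a + k + 1) + 1 := ⟨_, rfl⟩
  have hn0 : (0 : ℝ) < n := by
    rw [hn]
    positivity
  obtain ⟨ε₁, hε₁⟩ : ∃ ε₁ : ℝ, ε₁ = ε / 4 / ((M + 1) * n) := ⟨_, rfl⟩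
  have hε₁0 : 0 < ε₁ := by
    rw [hε₁]
    positivity
  have hsing : ∀ l s, l ∈ range (M + 1) → ∃ e₀ : ℕ, ∀ e : ℕ, e₀ ≤ e → ∃ δ : ℝ, 0 < δ ∧ ∃ ρ₀ : ℕ,
      ∀ ρ : ℕ, ρ₀ ≤ ρ → ∃ i₀ : ℕ, ∀ i : ℕ, i₀ ≤ i →
      ‖(∑ p ∈ PS (PP e ρ), (p : ℂ) * GP (fun v => gl M l (mu1 v))
        (Whs φ ψ (a + k + 1) s (ul M l)) z (k + 5) p (i + (ρ - (k + 5)))) /
          ((PS (PP e ρ)).card : ℂ)‖ ≤ ε₁ * (1 + MI q e ρ (2 ^ i) * ρ / (δ * 4 ^ ρ)) := by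
    intro l s hl
    have hl' : l ≤ M := by
      have := mem_range.1 hl
      omega
    obtain ⟨h1, h2⟩ := ul_bounds hM1 hl'
    obtain ⟨B, L', hB, hL', hW⟩ := GW_Whs hφ hψ (a + k + 1) s h1 h2
    exact single hq hz hz1 (gl_prop hM1 l).1 (gl_prop hM1 l).2 hB hL' hW
      (fun x y hxy => (Whs_supp hψ hxy).1) (fun x y hxy => (Whs_supp hψ hxy).2) hε₁0
  choose! e₀ he₀ using hsing
  refine ⟨∑ l ∈ range (M + 1), ∑ s ∈ range n, e₀ l s, fun e he => ?_⟩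
  have hle : ∀ l s, l ∈ range (M + 1) → s ∈ range n → e₀ l s ≤ 2 * e := by
    intro l s hl hs
    have h1 : e₀ l s ≤ ∑ s ∈ range n, e₀ l s :=
      Finset.single_le_sum (f := fun s => e₀ l s) (fun _ _ => Nat.zero_le _) hs
    have h2 : ∑ s ∈ range n, e₀ l s ≤ ∑ l ∈ range (M + 1), ∑ s ∈ range n, e₀ l s :=
      Finset.single_le_sum (f := fun l => ∑ s ∈ range n, e₀ l s) (fun _ _ => Nat.zero_le _) hl
    omega
  have hs2 := fun l s (hl : l ∈ range (M + 1)) (hs : s ∈ range n) =>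
    he₀ l s hl (2 * e) (hle l s hl hs)
  choose! δ hδ ρ₁ hρ₁ using hs2
  obtain ⟨δ', hδ'0, hδ'⟩ := AvgAt_min (range (M + 1) ×ˢ range n) (fun t => δ t.1 t.2)
    (fun t ht => hδ t.1 t.2 (Finset.mem_product.1 ht).1 (Finset.mem_product.1 ht).2)
  refine ⟨δ', hδ'0, ∑ l ∈ range (M + 1), ∑ s ∈ range n, ρ₁ l s, fun ρ hρ => ?_⟩
  have hρle : ∀ l s, l ∈ range (M + 1) → s ∈ range n → ρ₁ l s ≤ ρ := by
    intro l s hl hs
    have h1 : ρ₁ l s ≤ ∑ s ∈ range n, ρ₁ l s :=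
      Finset.single_le_sum (f := fun s => ρ₁ l s) (fun _ _ => Nat.zero_le _) hs
    have h2 : ∑ s ∈ range n, ρ₁ l s ≤ ∑ l ∈ range (M + 1), ∑ s ∈ range n, ρ₁ l s :=
      Finset.single_le_sum (f := fun l => ∑ s ∈ range n, ρ₁ l s) (fun _ _ => Nat.zero_le _) hl
    omega
  have h := AvgAt_fixed (q := q) (E := 2 * e) (ρ := ρ) (δ := δ') (η₁ := ε₁) hzn hφ hψ hε2.le hconv (by
    intro l s hl hs
    rw [← hn] at hs
    obtain ⟨i₀, hi₀⟩ := hρ₁ l s hl hs ρ (hρle l s hl hs)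
    refine ⟨i₀, fun i hi => (hi₀ i hi).trans ?_⟩
    refine mul_le_mul_of_nonneg_left ?_ hε₁0.le
    have h1 := hδ' (l, s) (Finset.mem_product.2 ⟨hl, hs⟩)
    have h2 : δ' ≤ δ l s := h1
    have h3 := MI_nonneg q (2 * e) ρ (2 ^ i)
    have h4 : MI q (2 * e) ρ (2 ^ i) * ρ / (δ l s * 4 ^ ρ) ≤
        MI q (2 * e) ρ (2 ^ i) * ρ / (δ' * 4 ^ ρ) := by
      refine div_le_div_of_nonneg_left (by positivity) (by positivity) ?_
      exact mul_le_mul_of_nonneg_right h2 (by positivity)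
    linarith)
  obtain ⟨i₀, hi₀⟩ := h
  refine ⟨i₀, fun i hi δ₂ hδ₂ hδ₂' => (hi₀ i hi).trans ?_⟩
  have h5 : ∀ s ∈ range (2 * (a + k + 1) + 1),
      ((M + 1) * ε₁) * (1 + MI q (2 * e) ρ (2 ^ (i + s + 1)) * ρ / (δ' * 4 ^ ρ)) ≤
      ((M + 1) * ε₁) * (1 + MI q (2 * e) ρ (2 ^ (i + s + 1)) * ρ / (δ₂ * 4 ^ ρ)) := by
    intro s _
    refine mul_le_mul_of_nonneg_left ?_ (by positivity)
    have h3 := MI_nonneg q (2 * e) ρ (2 ^ (i + s + 1))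
    have h4 : MI q (2 * e) ρ (2 ^ (i + s + 1)) * ρ / (δ' * 4 ^ ρ) ≤
        MI q (2 * e) ρ (2 ^ (i + s + 1)) * ρ / (δ₂ * 4 ^ ρ) := by
      refine div_le_div_of_nonneg_left (by positivity) (by positivity) ?_
      exact mul_le_mul_of_nonneg_right hδ₂' (by positivity)
    linarith
  have h6 : (M + 1) * ε₁ = ε / (4 * (2 * (a + k + 1) + 1 : ℕ)) := by
    rw [hε₁, hn]
    field_simp
  rw [← h6, Finset.mul_sum]
  have h7 := Finset.sum_le_sum h5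
  linarith

end Pool.Agent.Lib.MP_d57abb_nt.AX
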