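import Pool.Agent.Lib.MP_d57abb_nt.AX.ScaleAt
import Pool.Agent.Lib.MP_d57abb_nt.AX.AvgAt
import Pool.Agent.Lib.MP_d57abb_nt.AS.PNT

/-!
# Every window of bounded length contains a good scale

For every `ε > 0` there are `J` and `j₀` such that for every `j ≥ j₀` there is an `i` with `j - J ≤ i ≤ j` and
`‖MK a φ ψ z (4 ^ i)‖ ≤ ε` for all `z ≠ 1` with `z ^ q = 1`.
-/

namespace Pool.Agent.Lib.MP_d57abb_nt.AX

open Finset Pool.Agent.Lib.MP_d57abb_nt Pool.Agent.Lib.MP_d57abb_nt.TA Pool.Agent.Lib.MP_d57abb_nt.TZ Pool.Agent.Lib.MP_d57abb_nt.AS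

open Classical in
private theorem LimAt_PS_mem {P p : ℕ} (hp : p ∈ PS P) : SP p := by
  rw [PS, mem_filter] at hp
  exact hp.2

private theorem LimAt_one {φ ψ : ℝ → ℝ} {a k : ℕ} {La L : ℝ} (hφ : PW φ a La) (hψ : PW ψ k L) {z : ℂ}
    (hz : ‖z‖ = 1) {ε : ℝ} (hε : 0 < ε) : ∃ P₀ : ℕ, 1 ≤ P₀ ∧ ∀ P : ℕ, P₀ ≤ P → ∀ Y : ℝ, 0 < Y →
      ‖MK a φ ψ z (Y / P)‖ ≤ (‖(∑ p ∈ PS P, SK a φ ψ z (Y / p)) / ((PS P).card : ℂ)‖ + ε) / 2 := by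
  obtain ⟨C, hC0, hC⟩ := SK_bdd hφ hψ hz
  obtain ⟨C', hC'0, hC'⟩ := SK_lip hφ hψ hz
  obtain ⟨P₀, hP₀⟩ := pnt_avg (2 * C') C hε
  refine ⟨P₀ + 1, by omega, fun P hP Y hY => ?_⟩
  have hP0 : (0 : ℝ) < P := by exact_mod_cast (by omega : 0 < P)
  have hYP : 0 < Y / P := by positivity
  have hlip : ∀ u v : ℝ, 1 / 2 ≤ u → u ≤ v →
      ‖SK a φ ψ z (Y / P / u) - SK a φ ψ z (Y / P / v)‖ ≤ 2 * C' * |u - v| := by
    intro u v hu huv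
    have hu0 : 0 < u := by linarith
    have hv0 : 0 < v := by linarith
    have h1 : Y / P / v ≤ Y / P / u := div_le_div_of_nonneg_left hYP.le hu0 huv
    refine (hC' (Y / P / v) (Y / P / u) (by positivity) h1).trans ?_
    have h2 : C' * (Y / P / u - Y / P / v) / (Y / P / v) = C' * ((v - u) / u) := by
      field_simp
    rw [h2, abs_sub_comm, abs_of_nonneg (sub_nonneg.2 huv), mul_comm 2 C', mul_assoc]
    refine mul_le_mul_of_nonneg_left ?_ hC'0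
    rw [div_le_iff₀ hu0]
    nlinarith [sub_nonneg.2 huv]
  have h := hP₀ P (by omega) (fun u => SK a φ ψ z (Y / P / u)) (fun u hu _ => hC _ (by
      have : 0 < u := by linarith
      positivity))
    (fun u v hu _ hv _ => by
      rcases le_total u v with huv | huv
      · exact hlip u v hu huv
      · show ‖SK a φ ψ z (Y / P / u) - SK a φ ψ z (Y / P / v)‖ ≤ 2 * C' * |u - v|
        rw [norm_sub_rev, abs_sub_comm]
        exact hlip v u hv huv)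
  have e1 : ∑ p ∈ PS P, SK a φ ψ z (Y / P / ((p : ℝ) / P)) = ∑ p ∈ PS P, SK a φ ψ z (Y / p) := by
    refine Finset.sum_congr rfl fun p hp => ?_
    have hp0 : (0 : ℝ) < p := by exact_mod_cast (LimAt_PS_mem hp).1.pos
    have : Y / P / ((p : ℝ) / P) = Y / p := by
      field_simp
    rw [this]
  have h' : ‖(∑ p ∈ PS P, SK a φ ψ z (Y / p)) / ((PS P).card : ℂ) - 2 * MK a φ ψ z (Y / P)‖ ≤ ε := by
    rw [← e1]
    exact h
  have e2 : ‖(2 : ℂ) * MK a φ ψ z (Y / P)‖ = 2 * ‖MK a φ ψ z (Y / P)‖ := by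
    rw [norm_mul]
    norm_num
  have e3 : ‖(2 : ℂ) * MK a φ ψ z (Y / P)‖ ≤
      ‖(∑ p ∈ PS P, SK a φ ψ z (Y / p)) / ((PS P).card : ℂ)‖ + ε := by
    have e4 := norm_sub_norm_le ((2 : ℂ) * MK a φ ψ z (Y / P))
      ((∑ p ∈ PS P, SK a φ ψ z (Y / p)) / ((PS P).card : ℂ))
    rw [norm_sub_rev] at e4
    linarith
  rw [e2] at e3
  linarith

private theorem LimAt_norm {q : ℕ} (hq : 1 ≤ q) {z : ℂ} (hz : z ^ q = 1) : ‖z‖ = 1 := by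
  have h1 : ‖z‖ ^ q = 1 := by rw [← norm_pow, hz, norm_one]
  exact (pow_eq_one_iff_of_nonneg (norm_nonneg _) (by omega)).1 h1

private theorem LimAt_min {ι : Type*} (s : Finset ι) (f : ι → ℝ) (h : ∀ i ∈ s, 0 < f i) :
    ∃ δ : ℝ, 0 < δ ∧ ∀ i ∈ s, δ ≤ f i := by
  classical
  induction s using Finset.induction_on with
  | empty => exact ⟨1, one_pos, fun i hi => absurd hi (Finset.notMem_empty i)⟩
  | insert a s ha ih =>
    obtain ⟨δ, h0, h1⟩ := ih fun i hi => h i (Finset.mem_insert_of_mem hi)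
    refine ⟨min δ (f a), lt_min h0 (h a (Finset.mem_insert_self a s)), fun i hi => ?_⟩
    rcases Finset.mem_insert.1 hi with rfl | hi
    · exact min_le_right _ _
    · exact (min_le_left _ _).trans (h1 i hi)

private theorem LimAt_fin {q : ℕ} (hq : 1 ≤ q) : ∃ Z : Finset ℂ, ∀ z : ℂ, z ∈ Z ↔ z ^ q = 1 ∧ z ≠ 1 := by
  classical
  refine ⟨(Polynomial.nthRootsFinset q (1 : ℂ)).erase 1, fun z => ?_⟩
  rw [Finset.mem_erase, Polynomial.mem_nthRootsFinset (by omega)]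
  exact and_comm

theorem lim_at {q : ℕ} (hq : 1 ≤ q) {φ ψ : ℝ → ℝ} {a k : ℕ} {La L : ℝ}
    (hφ : PW φ a La) (hψ : PW ψ k L) {ε : ℝ} (hε : 0 < ε) :
    ∃ J j₀ : ℕ, ∀ j : ℕ, j₀ ≤ j → ∃ i : ℕ, i ≤ j ∧ j ≤ i + J ∧
      ∀ z : ℂ, z ^ q = 1 → z ≠ 1 → ‖MK a φ ψ z (4 ^ i)‖ ≤ ε := by
  obtain ⟨Z, hZ⟩ := LimAt_fin hq
  obtain ⟨n, hn⟩ : ∃ n : ℕ, n = 2 * (a + k + 1) + 1 := ⟨_, rfl⟩
  have hn1 : 1 ≤ n := by omega
  have hn0 : (0 : ℝ) < n := by exact_mod_cast hn1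
  have H1 := fun z (hz : z ∈ Z) => avg_at hq ((hZ z).1 hz).1 ((hZ z).1 hz).2 hφ hψ hε
  choose! e₀ he₀ using H1
  have H2 := fun z (hz : z ∈ Z) => LimAt_one hφ hψ (LimAt_norm hq ((hZ z).1 hz).1) hε
  choose! P₀ hP1 hP₀ using H2
  obtain ⟨e, he⟩ : ∃ e : ℕ, e = ∑ z ∈ Z, e₀ z := ⟨_, rfl⟩
  have hele : ∀ z ∈ Z, e₀ z ≤ e := fun z hz => by
    rw [he]
    exact Finset.single_le_sum (f := e₀) (fun _ _ => Nat.zero_le _) hz
  have H3 := fun z (hz : z ∈ Z) => he₀ z hz e (hele z hz)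
  choose! δ₀ hδ₀ R hR using H3
  obtain ⟨δ, hδ0, hδ⟩ := LimAt_min Z δ₀ hδ₀
  choose! i₀ hi₀ using hR
  obtain ⟨R', hR'⟩ : ∃ R' : ℕ, R' = ∑ z ∈ Z, R z + e + ∑ z ∈ Z, P₀ z + (k + 5) + 1 := ⟨_, rfl⟩
  have hRle : ∀ z ∈ Z, R z ≤ R' := fun z hz => by
    have := Finset.single_le_sum (f := R) (fun _ _ => Nat.zero_le _) hz
    omega
  obtain ⟨J, r₀, hJ⟩ := scale_at hq (2 * e) n hn1 hδ0 R'
  refine ⟨J, r₀ + J + a + (∑ ρ ∈ range (J + 1), ∑ z ∈ Z, i₀ z ρ) + 3, fun j hj => ?_⟩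
  obtain ⟨r, hr⟩ : ∃ r : ℕ, r + a = j + 3 := ⟨j + 3 - a, by omega⟩
  obtain ⟨ρ, hρ1, hρ2, hsum⟩ := hJ r (by omega)
  obtain ⟨i, hi⟩ : ∃ i : ℕ, i + ρ = r := ⟨r - ρ, by omega⟩
  have hir : r - ρ = i := by omega
  rw [hir] at hsum
  obtain ⟨σ, hσ⟩ : ∃ σ : ℕ, σ + e = ρ := ⟨ρ - e, by omega⟩
  obtain ⟨i', hi'⟩ : ∃ i' : ℕ, i' + σ = j := ⟨j - σ, by omega⟩
  have hρ0 : (0 : ℝ) < (ρ : ℝ) := by exact_mod_cast (by omega : 0 < ρ)
  have hPP : PP (2 * e) ρ = 4 ^ σ := by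
    unfold PP
    have : 2 * ρ - 2 * e = 2 * σ := by omega
    rw [this, pow_mul]
    norm_num
  refine ⟨i', by omega, by omega, fun z hz hz1 => ?_⟩
  have hzZ : z ∈ Z := (hZ z).2 ⟨hz, hz1⟩
  have hPge : P₀ z ≤ PP (2 * e) ρ := by
    rw [hPP]
    have h1 : σ < 4 ^ σ := Nat.lt_pow_self (by norm_num)
    have h2 := Finset.single_le_sum (f := P₀) (fun _ _ => Nat.zero_le _) hzZ
    omega
  have hi0 : i₀ z ρ ≤ i := by
    have h1 : i₀ z ρ ≤ ∑ z ∈ Z, i₀ z ρ :=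
      Finset.single_le_sum (f := fun z => i₀ z ρ) (fun _ _ => Nat.zero_le _) hzZ
    have h2 : ∑ z ∈ Z, i₀ z ρ ≤ ∑ ρ ∈ range (J + 1), ∑ z ∈ Z, i₀ z ρ :=
      Finset.single_le_sum (f := fun ρ => ∑ z ∈ Z, i₀ z ρ) (fun _ _ => Nat.zero_le _)
        (mem_range.2 (by omega))
    omega
  have h1 := hi₀ z hzZ ρ ((hRle z hzZ).trans hρ1) i hi0 δ hδ0 (hδ z hzZ)
  have hexp : i + (1 + (ρ - (k + 5)) + (a + k + 1)) = j := by omega
  rw [hexp, ← hn] at h1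
  have h2 : ∑ s ∈ range n, (1 + MI q (2 * e) ρ (2 ^ (i + s + 1)) * ρ / (δ * 4 ^ ρ)) ≤ 2 * n := by
    rw [Finset.sum_add_distrib, Finset.sum_const, card_range, nsmul_eq_mul, mul_one,
      ← Finset.sum_div, ← Finset.sum_mul]
    have h3 : (∑ s ∈ range n, MI q (2 * e) ρ (2 ^ (i + s + 1))) * ρ / (δ * 4 ^ ρ) ≤ n := by
      rw [div_le_iff₀ (by positivity)]
      calc (∑ s ∈ range n, MI q (2 * e) ρ (2 ^ (i + s + 1))) * ρ ≤
          n * (δ * 4 ^ ρ / ρ) * ρ := mul_le_mul_of_nonneg_right hsum hρ0.le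
        _ = n * (δ * 4 ^ ρ) := by field_simp
    linarith
  have h3 : ε / (4 * (n : ℝ)) * ∑ s ∈ range n, (1 + MI q (2 * e) ρ (2 ^ (i + s + 1)) * ρ / (δ * 4 ^ ρ)) ≤
      ε / 2 := by
    calc _ ≤ ε / (4 * (n : ℝ)) * (2 * n) := mul_le_mul_of_nonneg_left h2 (by positivity)
      _ = ε / 2 := by
        field_simp
        ring
  have h4 := hP₀ z hzZ (PP (2 * e) ρ) hPge (4 ^ j) (by positivity)
  have h5 : (4 : ℝ) ^ j / ((PP (2 * e) ρ : ℕ) : ℝ) = 4 ^ i' := by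
    rw [hPP, ← hi']
    push_cast
    rw [pow_add]
    field_simp
  rw [h5] at h4
  linarith

end Pool.Agent.Lib.MP_d57abb_nt.AX
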