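import Pool.Agent.Lib.MP_d57abb_nt.AX.Trap
import Pool.Agent.Lib.MP_d57abb_nt.AS.Mass
import Pool.Agent.Lib.MP_d57abb_nt.TS.MassG
import Pool.Agent.Lib.MP_d57abb_nt.TS.Geo

/-!
# The mass of a scale
-/

namespace Pool.Agent.Lib.MP_d57abb_nt.AX

open Finset Pool.Agent.Lib.MP_d57abb_nt Pool.Agent.Lib.MP_d57abb_nt.TA Pool.Agent.Lib.MP_d57abb_nt.TZ Pool.Agent.Lib.MP_d57abb_nt.AS Pool.Agent.Lib.MP_d57abb_nt.TS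

/-- the mass at the scale `Y` is bounded below -/
theorem low {c₁ : ℝ} (hc₁ : 1 < c₁) {ψ : ℝ → ℝ} (hψ0 : ∀ x, 0 ≤ ψ x)
    (hψ : ∀ k : ℕ, 1 ≤ k → (tc c₁ k : ℝ) ≤ tp ψ k) :
    ∃ c₂ η : ℝ, 0 < c₂ ∧ 0 < η ∧ η ≤ 1 / 2 ∧ ∃ Y₀ : ℝ, 1 ≤ Y₀ ∧ ∀ (φ : ℝ → ℝ) (a : ℕ), (∀ x, 0 ≤ φ x) →
      (∀ x, η ≤ x → x ≤ 1 → φ x = 1) → ∀ Y : ℝ, Y₀ ≤ Y →
      c₂ ≤ ∑ k ∈ Icc 1 ⌊2 ^ a * Y⌋₊, φ (k / Y) * tp ψ k / k := by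
  obtain ⟨c0, hc0, N0, hN0⟩ := mass_ge c₁ hc₁
  obtain ⟨η, hη⟩ : ∃ η : ℝ, η = min (1 / 2) (c0 / (12 * c₁)) := ⟨_, rfl⟩
  have hη0 : 0 < η := by
    rw [hη]
    exact lt_min (by norm_num) (by positivity)
  have hη1 : η ≤ 1 / 2 := by
    rw [hη]
    exact min_le_left _ _
  have hη2 : 3 * c₁ * η ≤ c0 / 4 := by
    have h1 : η ≤ c0 / (12 * c₁) := by
      rw [hη]
      exact min_le_right _ _
    rw [le_div_iff₀ (by positivity)] at h1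
    linarith
  have htp : ∀ k : ℕ, 0 ≤ tp ψ k := fun k => by
    unfold tp
    exact Finset.sum_nonneg fun d _ => hψ0 _
  refine ⟨c0 / 2, η, by positivity, hη0, hη1, (N0 : ℝ) + 5, by
    have : (0 : ℝ) ≤ N0 := Nat.cast_nonneg _
    linarith, ?_⟩
  intro φ a hφ0 hφ1 Y hY
  have hN00 : (0 : ℝ) ≤ N0 := Nat.cast_nonneg _
  have hY0 : 0 < Y := by linarith
  have hfl : ((⌊Y⌋₊ : ℕ) : ℝ) ≤ Y := Nat.floor_le hY0.le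
  have hfl2 : Y - 1 < ((⌊Y⌋₊ : ℕ) : ℝ) := Nat.sub_one_lt_floor Y
  have hflN : N0 ≤ ⌊Y⌋₊ := by
    have : N0 ≤ ⌊Y⌋₊ := Nat.le_floor (by linarith)
    exact this
  have h1 := hN0 ⌊Y⌋₊ hflN
  have h2 := mass_le c₁ hc₁.le ⌊η * Y⌋₊
  have hfl3 : ((⌊η * Y⌋₊ : ℕ) : ℝ) ≤ η * Y := Nat.floor_le (by positivity)
  have h3 : 3 * c₁ * ((⌊η * Y⌋₊ : ℕ) : ℝ) ≤ c0 / 4 * Y := by
    have e1 : 3 * c₁ * ((⌊η * Y⌋₊ : ℕ) : ℝ) ≤ 3 * c₁ * (η * Y) :=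
      mul_le_mul_of_nonneg_left hfl3 (by positivity)
    have e2 : 3 * c₁ * η * Y ≤ c0 / 4 * Y := mul_le_mul_of_nonneg_right hη2 hY0.le
    linarith
  have hle : ⌊η * Y⌋₊ ≤ ⌊Y⌋₊ := Nat.floor_le_floor (by nlinarith)
  have h4 : ∑ k ∈ Icc 1 ⌊Y⌋₊, (tc c₁ k : ℝ) = ∑ k ∈ Icc 1 ⌊η * Y⌋₊, (tc c₁ k : ℝ) +
      ∑ k ∈ Ioc ⌊η * Y⌋₊ ⌊Y⌋₊, (tc c₁ k : ℝ) := by
    rw [← Finset.sum_union]
    · refine Finset.sum_congr ?_ fun _ _ => rfl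
      ext k
      simp only [Finset.mem_union, Finset.mem_Icc, Finset.mem_Ioc]
      omega
    · rw [Finset.disjoint_left]
      intro k hk1 hk2
      rw [Finset.mem_Icc] at hk1
      rw [Finset.mem_Ioc] at hk2
      omega
  have h5 : c0 / 2 * Y ≤ ∑ k ∈ Ioc ⌊η * Y⌋₊ ⌊Y⌋₊, (tc c₁ k : ℝ) := by
    have e1 : c0 * (Y - 1) ≤ c0 * ((⌊Y⌋₊ : ℕ) : ℝ) := mul_le_mul_of_nonneg_left hfl2.le hc0.le
    have e2 : c0 * 5 ≤ c0 * Y := mul_le_mul_of_nonneg_left (by linarith) hc0.le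
    linarith
  have hsub : Ioc ⌊η * Y⌋₊ ⌊Y⌋₊ ⊆ Icc 1 ⌊2 ^ a * Y⌋₊ := by
    intro k hk
    rw [Finset.mem_Ioc] at hk
    rw [Finset.mem_Icc]
    refine ⟨by omega, hk.2.trans (Nat.floor_le_floor ?_)⟩
    have : (1 : ℝ) ≤ 2 ^ a := one_le_pow₀ (by norm_num)
    nlinarith
  have h6 : ∑ k ∈ Ioc ⌊η * Y⌋₊ ⌊Y⌋₊, (tc c₁ k : ℝ) / Y ≤
      ∑ k ∈ Ioc ⌊η * Y⌋₊ ⌊Y⌋₊, φ (k / Y) * tp ψ k / k := by
    refine Finset.sum_le_sum fun k hk => ?_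
    rw [Finset.mem_Ioc] at hk
    have hk1 : η * Y < k := (Nat.floor_lt (by positivity)).1 hk.1
    have hk2 : (k : ℝ) ≤ Y := (Nat.le_floor_iff hY0.le).1 hk.2
    have hk0 : (0 : ℝ) < k := lt_trans (by positivity) hk1
    have hkn : 1 ≤ k := by
      have : 0 < k := by exact_mod_cast hk0
      exact this
    rw [hφ1 _ (by rw [le_div_iff₀ hY0]; exact hk1.le) (by rw [div_le_iff₀ hY0]; linarith), one_mul]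
    calc (tc c₁ k : ℝ) / Y ≤ tp ψ k / Y := div_le_div_of_nonneg_right (hψ k hkn) hY0.le
      _ ≤ tp ψ k / k := div_le_div_of_nonneg_left (htp k) hk0 hk2
  have h7 : ∑ k ∈ Ioc ⌊η * Y⌋₊ ⌊Y⌋₊, φ (k / Y) * tp ψ k / k ≤
      ∑ k ∈ Icc 1 ⌊2 ^ a * Y⌋₊, φ (k / Y) * tp ψ k / k :=
    Finset.sum_le_sum_of_subset_of_nonneg hsub fun k _ _ =>
      div_nonneg (mul_nonneg (hφ0 _) (htp k)) (Nat.cast_nonneg _)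
  refine le_trans ?_ (h6.trans h7)
  rw [← Finset.sum_div, le_div_iff₀ hY0]
  exact h5

end Pool.Agent.Lib.MP_d57abb_nt.AX
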