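import Pool.Agent.Lib.MP_d57abb_nt.AX.Pos
import Pool.Agent.Lib.MP_d57abb_nt.TS.Cnt

/-!
# Every residue class of the number of prime factors, at all scales
-/

namespace Pool.Agent.Lib.MP_d57abb_nt.AX

open Finset Pool.Agent.Lib.MP_d57abb_nt Pool.Agent.Lib.MP_d57abb_nt.TA Pool.Agent.Lib.MP_d57abb_nt.TZ Pool.Agent.Lib.MP_d57abb_nt.TS

open Classical in
theorem all_classes (m r : ℕ) (hr : r < m) :
    (∀ (c : ℝ) (T : ℕ → ℕ), 1 < c → (∀ k : ℕ, T k =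
        ((k ^ 2 + 3 * k + 1).divisors.filter
          (fun d : ℕ => (k : ℝ) ≤ c * d ∧ (d : ℝ) ≤ c * k)).card) →
      (∀ N : ℕ, ∑ k ∈ Icc 1 N, (T k : ℝ) ≤ 3 * c * N) ∧
      ∃ κ : ℝ, 0 < κ ∧ ∃ N₀ : ℕ, ∀ N : ℕ, N₀ ≤ N →
        κ * N ≤ ∑ k ∈ (Icc 1 N).filter
          (fun k => ArithmeticFunction.cardFactors (k ^ 2 + 3 * k + 1) % m = r), (T k : ℝ)) ∧
    ∃ κ : ℝ, 0 < κ ∧ ∃ N₀ : ℕ, ∀ N : ℕ, N₀ ≤ N →
      κ * N / (Real.log N) ^ 2 ≤ (((Icc 1 N).filter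
        (fun k => ArithmeticFunction.cardFactors (k ^ 2 + 3 * k + 1) % m = r)).card : ℝ) := by
  refine ⟨fun c T hc hT => ?_, ?_⟩
  · have hT' : T = tc c := funext hT
    subst hT'
    exact ⟨mass_le c hc.le, pos c hc m r hr⟩
  · obtain ⟨κ, hκ, N₀, hN₀⟩ := pos 2 (by norm_num) m r hr
    obtain ⟨κ', hκ', hcount⟩ := count 2 (by norm_num) κ hκ
    refine ⟨κ', hκ', N₀ + 3, fun N hN => ?_⟩
    exact hcount N (by omega) (fun k => om k % m = r) (hN₀ N (by omega))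

end Pool.Agent.Lib.MP_d57abb_nt.AX
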