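import Pool.Agent.Lib.MP_d57abb_nt.AX.LimAt
import Pool.Agent.Lib.MP_d57abb_nt.AX.Low

/-!
# All classes have positive weighted density at all scales
-/

namespace Pool.Agent.Lib.MP_d57abb_nt.AX

open Finset Pool.Agent.Lib.MP_d57abb_nt Pool.Agent.Lib.MP_d57abb_nt.TA Pool.Agent.Lib.MP_d57abb_nt.TZ Pool.Agent.Lib.MP_d57abb_nt.AS Pool.Agent.Lib.MP_d57abb_nt.TS

private theorem Pos_ind {m r : ℕ} (hr : r < m) {ζ : ℂ} (hζ : IsPrimitiveRoot ζ m) (a : ℕ) :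
    ∑ l ∈ range m, ζ ^ (l * (m - r)) * (ζ ^ l) ^ a = if a % m = r then (m : ℂ) else 0 := by
  have e : ∀ l ∈ range m, ζ ^ (l * (m - r)) * (ζ ^ l) ^ a = (ζ ^ (a + (m - r))) ^ l := by
    intro l _
    rw [← pow_mul, ← pow_mul, ← pow_add]
    congr 1
    ring
  rw [Finset.sum_congr rfl e]
  have hiff : ζ ^ (a + (m - r)) = 1 ↔ a % m = r := by
    rw [hζ.pow_eq_one_iff_dvd]
    constructor
    · rintro ⟨c, hc⟩
      have h1 : (a + (m - r) + r) % m = r % m := by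
        rw [hc, add_comm, Nat.add_mul_mod_self_left]
      have h2 : a + (m - r) + r = a + m := by omega
      rw [h2, Nat.add_mod_right, Nat.mod_eq_of_lt hr] at h1
      exact h1
    · intro h
      have h1 := Nat.div_add_mod a m
      rw [h] at h1
      refine ⟨a / m + 1, ?_⟩
      rw [mul_add, mul_one]
      omega
  by_cases h : a % m = r
  · rw [if_pos h, hiff.2 h]
    simp
  · rw [if_neg h]
    have h1 : ζ ^ (a + (m - r)) ≠ 1 := fun h2 => h (hiff.1 h2)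
    rw [geom_sum_eq h1, ← pow_mul, mul_comm, pow_mul, hζ.pow_eq_one, one_pow, sub_self, zero_div]

private theorem Pos_sum {m r : ℕ} (hr : r < m) {ζ : ℂ} (hζ : IsPrimitiveRoot ζ m)
    (t : ℕ → ℝ) (g : ℕ → ℕ) (N : ℕ) :
    (m : ℂ) * (((∑ k ∈ (Icc 1 N).filter (fun k => g k % m = r), t k : ℝ) : ℂ)) =
      ∑ l ∈ range m, ζ ^ (l * (m - r)) *
        ∑ k ∈ Icc 1 N, ((t k : ℝ) : ℂ) * (ζ ^ l) ^ g k := by
  have e1 : ∑ l ∈ range m, ζ ^ (l * (m - r)) * ∑ k ∈ Icc 1 N, ((t k : ℝ) : ℂ) * (ζ ^ l) ^ g k =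
      ∑ k ∈ Icc 1 N, ((t k : ℝ) : ℂ) * ∑ l ∈ range m, ζ ^ (l * (m - r)) * (ζ ^ l) ^ g k := by
    simp only [Finset.mul_sum]
    rw [Finset.sum_comm]
    refine Finset.sum_congr rfl fun k _ => Finset.sum_congr rfl fun l _ => ?_
    ring
  rw [e1, Finset.sum_filter, Complex.ofReal_sum, Finset.mul_sum]
  refine Finset.sum_congr rfl fun k _ => ?_
  rw [Pos_ind hr hζ]
  split_ifs
  · ring
  · simp

/-- the sum over a residue class at the scale `Y` -/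
noncomputable def SR (a : ℕ) (φ ψ : ℝ → ℝ) (m r : ℕ) (Y : ℝ) : ℝ :=
  ∑ k ∈ (Icc 1 ⌊2 ^ a * Y⌋₊).filter (fun k => om k % m = r), φ (k / Y) * tp ψ k / k

private theorem Pos_SK {m r : ℕ} (hr : r < m) {ζ : ℂ} (hζ : IsPrimitiveRoot ζ m) (a : ℕ) (φ ψ : ℝ → ℝ)
    (Y : ℝ) : (m : ℂ) * ((SR a φ ψ m r Y : ℝ) : ℂ) =
      ∑ l ∈ range m, ζ ^ (l * (m - r)) * SK a φ ψ (ζ ^ l) Y :=
  Pos_sum hr hζ (fun k : ℕ => φ (k / Y) * tp ψ k / k) om ⌊2 ^ a * Y⌋₊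

private theorem Pos_int {φ ψ : ℝ → ℝ} {a : ℕ} {z : ℂ} {C : ℝ} (hC : 0 ≤ C)
    (hlip : ∀ Y Y' : ℝ, 0 < Y → Y ≤ Y' →
      ‖SK a φ ψ z Y' - SK a φ ψ z Y‖ ≤ C * (Y' - Y) / Y) {Y : ℝ} (hY : 0 < Y) :
    IntervalIntegrable (fun u => SK a φ ψ z (Y / u)) MeasureTheory.volume (1 / 2) 1 := by
  apply ContinuousOn.intervalIntegrable
  rw [Set.uIcc_of_le (by norm_num)]
  have key : ∀ u ∈ Set.Icc (1 / 2 : ℝ) 1, ∀ v ∈ Set.Icc (1 / 2 : ℝ) 1, u ≤ v →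
      ‖SK a φ ψ z (Y / u) - SK a φ ψ z (Y / v)‖ ≤ 2 * C * |u - v| := by
    intro u hu v hv huv
    have hu0 : 0 < u := by linarith [hu.1]
    have hv0 : 0 < v := by linarith [hv.1]
    have h1 := hlip (Y / v) (Y / u) (by positivity) (div_le_div_of_nonneg_left hY.le hu0 huv)
    refine h1.trans ?_
    have h2 : C * (Y / u - Y / v) / (Y / v) = C * (v - u) / u := by
      field_simp
    rw [h2, div_le_iff₀ hu0, abs_sub_comm, abs_of_nonneg (sub_nonneg.2 huv)]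
    have h3 : 0 ≤ C * (v - u) := mul_nonneg hC (sub_nonneg.2 huv)
    nlinarith [hu.1]
  have key2 : ∀ u ∈ Set.Icc (1 / 2 : ℝ) 1, ∀ v ∈ Set.Icc (1 / 2 : ℝ) 1,
      dist (SK a φ ψ z (Y / u)) (SK a φ ψ z (Y / v)) ≤ 2 * C * dist u v := by
    intro u hu v hv
    rw [dist_eq_norm, Real.dist_eq]
    rcases le_total u v with h | h
    · exact key u hu v hv h
    · rw [norm_sub_rev, abs_sub_comm]
      exact key v hv u hu h
  exact (LipschitzOnWith.of_dist_le_mul (K := Real.toNNReal (2 * C)) fun u hu v hv => by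
    rw [Real.coe_toNNReal _ (by positivity)]
    exact key2 u hu v hv).continuousOn

/-- at a good scale every class has its share -/
private theorem Pos_good {m r : ℕ} (hr : r < m) {φ ψ : ℝ → ℝ} {a k : ℕ} {La L : ℝ} (hφ : PW φ a La)
    (hψ : PW ψ k L) {c₂ : ℝ} {Y : ℝ} (hY : 0 < Y)
    (hlow : ∀ u : ℝ, 1 / 2 ≤ u → u ≤ 1 →
      c₂ ≤ ∑ k ∈ Icc 1 ⌊2 ^ a * (Y / u)⌋₊, φ (k / (Y / u)) * tp ψ k / k)
    (hgood : ∀ z : ℂ, z ^ m = 1 → z ≠ 1 → ‖MK a φ ψ z Y‖ ≤ c₂ / (8 * m)) (hc₂ : 0 < c₂) :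
    ∃ u : ℝ, 1 / 2 ≤ u ∧ u ≤ 1 ∧ c₂ / (4 * m) < SR a φ ψ m r (Y / u) := by
  have hm : 1 ≤ m := by omega
  have hm0 : (0 : ℝ) < m := by exact_mod_cast hm
  have hζ : IsPrimitiveRoot (Complex.exp (2 * Real.pi * Complex.I / m)) m :=
    Complex.isPrimitiveRoot_exp m (by omega)
  obtain ⟨ζ, hζd⟩ : ∃ ζ : ℂ, ζ = Complex.exp (2 * Real.pi * Complex.I / m) := ⟨_, rfl⟩
  rw [← hζd] at hζ
  have hζn : ‖ζ‖ = 1 := Complex.norm_eq_one_of_pow_eq_one hζ.pow_eq_one (by omega)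
  have hζl : ∀ l : ℕ, ‖ζ ^ l‖ = 1 := fun l => by rw [norm_pow, hζn, one_pow]
  have hint : ∀ l : ℕ, IntervalIntegrable (fun u => SK a φ ψ (ζ ^ l) (Y / u))
      MeasureTheory.volume (1 / 2) 1 := fun l => by
    obtain ⟨C, hC, hlip⟩ := SK_lip hφ hψ (hζl l)
    exact Pos_int hC hlip hY
  by_contra hcon
  have hcon' : ∀ u : ℝ, 1 / 2 ≤ u → u ≤ 1 → SR a φ ψ m r (Y / u) ≤ c₂ / (4 * m) := by
    intro u h1 h2
    by_contra h3
    exact hcon ⟨u, h1, h2, not_le.1 h3⟩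
  have htp : ∀ k : ℕ, 0 ≤ tp ψ k := fun k => tp_nonneg hψ k
  have hSR0 : ∀ Y : ℝ, 0 ≤ SR a φ ψ m r Y := fun Y =>
    Finset.sum_nonneg fun k _ => div_nonneg (mul_nonneg (hφ.nn _) (htp k)) (Nat.cast_nonneg _)
  -- the integral of the sum over the class
  have hI : ‖∫ u in (1 / 2 : ℝ)..1, ∑ l ∈ range m, ζ ^ (l * (m - r)) * SK a φ ψ (ζ ^ l) (Y / u)‖ ≤
      c₂ / 4 * |1 - 1 / 2| := by
    refine intervalIntegral.norm_integral_le_of_norm_le_const fun u hu => ?_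
    rw [Set.uIoc_of_le (by norm_num)] at hu
    rw [← Pos_SK hr hζ, norm_mul, Complex.norm_natCast, Complex.norm_real,
      Real.norm_of_nonneg (hSR0 _)]
    calc (m : ℝ) * SR a φ ψ m r (Y / u) ≤ m * (c₂ / (4 * m)) :=
          mul_le_mul_of_nonneg_left (hcon' u hu.1.le hu.2) hm0.le
      _ = c₂ / 4 := by field_simp
  have hI2 : ∫ u in (1 / 2 : ℝ)..1, ∑ l ∈ range m, ζ ^ (l * (m - r)) * SK a φ ψ (ζ ^ l) (Y / u) =
      ∑ l ∈ range m, ζ ^ (l * (m - r)) * MK a φ ψ (ζ ^ l) Y := by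
    rw [intervalIntegral.integral_finsetSum fun l _ => (hint l).const_mul _]
    refine Finset.sum_congr rfl fun l _ => ?_
    rw [intervalIntegral.integral_const_mul]
    rfl
  rw [hI2, ← Finset.add_sum_erase (range m) _ (Finset.mem_range.2 (by omega : 0 < m))] at hI
  have h0 : ζ ^ (0 * (m - r)) * MK a φ ψ (ζ ^ 0) Y = MK a φ ψ 1 Y := by
    rw [zero_mul, pow_zero, one_mul]
  rw [h0] at hI
  -- the other terms
  have hrest : ‖∑ l ∈ (range m).erase 0, ζ ^ (l * (m - r)) * MK a φ ψ (ζ ^ l) Y‖ ≤ c₂ / 8 := by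
    have h1 : ∀ l ∈ (range m).erase 0, ‖ζ ^ (l * (m - r)) * MK a φ ψ (ζ ^ l) Y‖ ≤ c₂ / (8 * m) := by
      intro l hl
      rw [Finset.mem_erase, Finset.mem_range] at hl
      rw [norm_mul, hζl, one_mul]
      refine hgood _ ?_ ?_
      · rw [← pow_mul, mul_comm, pow_mul, hζ.pow_eq_one, one_pow]
      · intro h
        rw [hζ.pow_eq_one_iff_dvd] at h
        exact hl.1 (Nat.eq_zero_of_dvd_of_lt h hl.2)
    refine (norm_sum_le _ _).trans ((Finset.sum_le_sum h1).trans ?_)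
    rw [Finset.sum_const, nsmul_eq_mul]
    have h2 : (((range m).erase 0).card : ℝ) ≤ m := by
      have := Finset.card_le_card (Finset.erase_subset 0 (range m))
      rw [Finset.card_range] at this
      exact_mod_cast this
    calc (((range m).erase 0).card : ℝ) * (c₂ / (8 * m)) ≤ m * (c₂ / (8 * m)) :=
          mul_le_mul_of_nonneg_right h2 (by positivity)
      _ = c₂ / 8 := by field_simp
  -- the main term
  have hmain : c₂ / 2 ≤ ‖MK a φ ψ 1 Y‖ := by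
    have hS : ∀ u : ℝ, SK a φ ψ 1 (Y / u) =
        ((∑ k ∈ Icc 1 ⌊2 ^ a * (Y / u)⌋₊, φ (k / (Y / u)) * tp ψ k / k : ℝ) : ℂ) := by
      intro u
      unfold SK
      rw [Complex.ofReal_sum]
      refine Finset.sum_congr rfl fun k _ => ?_
      rw [one_pow, mul_one]
    have h1 : MK a φ ψ 1 Y = ((∫ u in (1 / 2 : ℝ)..1,
        ∑ k ∈ Icc 1 ⌊2 ^ a * (Y / u)⌋₊, φ (k / (Y / u)) * tp ψ k / k : ℝ) : ℂ) := by
      unfold MK
      rw [← intervalIntegral.integral_ofReal]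
      exact intervalIntegral.integral_congr fun u _ => hS u
    have hi := hint 0
    rw [pow_zero] at hi
    have hi2 : IntervalIntegrable (fun u : ℝ => ∑ k ∈ Icc 1 ⌊2 ^ a * (Y / u)⌋₊,
        φ (k / (Y / u)) * tp ψ k / k) MeasureTheory.volume (1 / 2) 1 := by
      have h2 : (fun u : ℝ => ∑ k ∈ Icc 1 ⌊2 ^ a * (Y / u)⌋₊, φ (k / (Y / u)) * tp ψ k / k) =
          fun u => (SK a φ ψ 1 (Y / u)).re := by
        funext u
        rw [hS u, Complex.ofReal_re]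
      rw [h2]
      exact ⟨hi.1.re, hi.2.re⟩
    have h3 : c₂ / 2 ≤ ∫ u in (1 / 2 : ℝ)..1,
        ∑ k ∈ Icc 1 ⌊2 ^ a * (Y / u)⌋₊, φ (k / (Y / u)) * tp ψ k / k := by
      have h4 := intervalIntegral.integral_mono_on (a := (1 / 2 : ℝ)) (b := 1)
        (f := fun _ => c₂) (μ := MeasureTheory.volume) (by norm_num)
        (intervalIntegrable_const) hi2 (fun u hu => hlow u hu.1 hu.2)
      rw [intervalIntegral.integral_const, smul_eq_mul] at h4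
      have h5 : (1 - 1 / 2) * c₂ = c₂ / 2 := by ring
      rw [h5] at h4
      exact h4
    rw [h1, Complex.norm_real]
    exact h3.trans (le_abs_self _)
  have h9 := norm_sub_le_norm_add (MK a φ ψ 1 Y)
    (∑ l ∈ (range m).erase 0, ζ ^ (l * (m - r)) * MK a φ ψ (ζ ^ l) Y)
  have h10 : |(1 : ℝ) - 1 / 2| = 1 / 2 := by norm_num
  rw [h10] at hI
  linarith

/-- every class has positive weighted density at all scales -/
theorem pos (c : ℝ) (hc : 1 < c) (m r : ℕ) (hr : r < m) : ∃ κ : ℝ, 0 < κ ∧ ∃ N₀ : ℕ, ∀ N : ℕ, N₀ ≤ N →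
    κ * N ≤ ∑ k ∈ (Icc 1 N).filter (fun k => om k % m = r), (tc c k : ℝ) := by
  have hm : 1 ≤ m := by omega
  have hm0 : (0 : ℝ) < m := by exact_mod_cast hm
  have hc0 : 0 < c := by linarith
  -- the weights
  obtain ⟨c₁, hc₁⟩ : ∃ c₁ : ℝ, c₁ = (1 + c) / 2 := ⟨_, rfl⟩
  have hc₁1 : 1 < c₁ := by
    rw [hc₁]
    linarith
  have hc₁c : c₁ < c := by
    rw [hc₁]
    linarith
  obtain ⟨η₁, hη₁⟩ : ∃ η₁ : ℝ, η₁ = min (c - c₁) (1 / c₁ - 1 / c) := ⟨_, rfl⟩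
  have hη₁0 : 0 < η₁ := by
    rw [hη₁]
    refine lt_min (by linarith) (sub_pos.2 ?_)
    exact one_div_lt_one_div_of_lt (by linarith) hc₁c
  have h1 : 1 / c + η₁ ≤ 1 / c₁ := by
    have : η₁ ≤ 1 / c₁ - 1 / c := by
      rw [hη₁]
      exact min_le_right _ _
    linarith
  have h2 : c₁ ≤ c - η₁ := by
    have : η₁ ≤ c - c₁ := by
      rw [hη₁]
      exact min_le_left _ _
    linarith
  obtain ⟨k, hψ⟩ := tr0_pw (α := 1 / c) (β := c) (by positivity) hη₁0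
  obtain ⟨ψ, hψd⟩ : ∃ ψ : ℝ → ℝ, ψ = tr0 (1 / c) c η₁ := ⟨_, rfl⟩
  have hψlow : ∀ k : ℕ, 1 ≤ k → (tc c₁ k : ℝ) ≤ tp ψ k := fun k hk => by
    rw [hψd]
    exact tc_le_tp (by linarith) hη₁0 h1 h2 hk
  have hψup : ∀ k : ℕ, 1 ≤ k → tp ψ k ≤ (tc c k : ℝ) := fun k hk => by
    rw [hψd]
    exact tp_le_tc hc0 hη₁0 hk
  rw [← hψd] at hψ
  obtain ⟨c₂, η, hc₂, hη, hη1, Y₀, hY₀, hlow⟩ := low hc₁1 hψ.nn hψlow
  obtain ⟨a, hφ⟩ := tr0_pw (α := η / 2) (β := 2) (η := η / 2) (by positivity) (by positivity)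
  obtain ⟨φ, hφd⟩ : ∃ φ : ℝ → ℝ, φ = tr0 (η / 2) 2 (η / 2) := ⟨_, rfl⟩
  have hφ1 : ∀ x, η ≤ x → x ≤ 1 → φ x = 1 := fun x h3 h4 => by
    rw [hφd]
    exact tr0_one (by positivity) (by linarith) (by linarith)
  rw [← hφd] at hφ
  obtain ⟨J, j₀, hJ⟩ := lim_at (q := m) hm hφ hψ (ε := c₂ / (8 * m)) (by positivity)
  obtain ⟨n₀, hn₀⟩ := exists_nat_ge Y₀
  have htp : ∀ k : ℕ, 0 ≤ tp ψ k := fun k => tp_nonneg hψ k
  refine ⟨c₂ / (4 * m) / 2 ^ a / (4 ^ J * (2 ^ (a + 1) * 4)), by positivity,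
    2 ^ (a + 1) * 4 ^ (j₀ + J + n₀), fun N hN => ?_⟩
  -- the level
  obtain ⟨j, hj⟩ : ∃ j : ℕ, j = Nat.log 4 (N / 2 ^ (a + 1)) := ⟨_, rfl⟩
  have h2a : 0 < 2 ^ (a + 1) := by positivity
  have hNd : 4 ^ (j₀ + J + n₀) ≤ N / 2 ^ (a + 1) := by
    rw [Nat.le_div_iff_mul_le h2a, mul_comm]
    exact hN
  have hNd0 : N / 2 ^ (a + 1) ≠ 0 := by
    have : 0 < 4 ^ (j₀ + J + n₀) := by positivity
    omega
  have hj1 : 2 ^ (a + 1) * 4 ^ j ≤ N := by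
    have h3 : 4 ^ j ≤ N / 2 ^ (a + 1) := by
      rw [hj]
      exact Nat.pow_log_le_self 4 hNd0
    rw [Nat.le_div_iff_mul_le h2a, mul_comm] at h3
    exact h3
  have hj2 : N < 2 ^ (a + 1) * 4 ^ (j + 1) := by
    have h3 : N / 2 ^ (a + 1) < 4 ^ (j + 1) := by
      rw [hj]
      exact Nat.lt_pow_succ_log_self (by norm_num) _
    rw [Nat.div_lt_iff_lt_mul h2a, mul_comm] at h3
    exact h3
  have hj3 : j₀ + J + n₀ ≤ j := by
    rw [hj]
    exact Nat.le_log_of_pow_le (by norm_num) hNd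
  obtain ⟨i, hi1, hi2, hi3⟩ := hJ j (by omega)
  obtain ⟨Y, hYd⟩ : ∃ Y : ℝ, Y = 4 ^ i := ⟨_, rfl⟩
  have hY0 : 0 < Y := by
    rw [hYd]
    positivity
  have hYY₀ : Y₀ ≤ Y := by
    have h3 : n₀ < 4 ^ n₀ := Nat.lt_pow_self (by norm_num)
    have h4 : 4 ^ n₀ ≤ 4 ^ i := Nat.pow_le_pow_right (by norm_num) (by omega)
    have h5 : (n₀ : ℝ) ≤ ((4 ^ i : ℕ) : ℝ) := by exact_mod_cast (by omega : n₀ ≤ 4 ^ i)
    rw [hYd]
    push_cast at h5
    linarith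
  rw [← hYd] at hi3
  obtain ⟨u, hu1, hu2, hu3⟩ := Pos_good hr hφ hψ hY0 (fun u h3 h4 =>
    hlow φ a hφ.nn hφ1 (Y / u) (by
      have hu0 : 0 < u := by linarith
      rw [le_div_iff₀ hu0]
      nlinarith)) hi3 hc₂
  have hu0 : 0 < u := by linarith
  have hYu : 0 < Y / u := by positivity
  have hYu1 : Y ≤ Y / u := by
    rw [le_div_iff₀ hu0]
    nlinarith
  have hYu2 : Y / u ≤ 2 * Y := by
    rw [div_le_iff₀ hu0]
    nlinarith
  have hNle : ⌊2 ^ a * (Y / u)⌋₊ ≤ N := by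
    have h3 : 2 ^ a * (Y / u) ≤ (N : ℝ) := by
      have h4 : (2 : ℝ) ^ a * (Y / u) ≤ 2 ^ (a + 1) * Y := by
        rw [pow_succ]
        have : (2 : ℝ) ^ a * (Y / u) ≤ 2 ^ a * (2 * Y) :=
          mul_le_mul_of_nonneg_left hYu2 (by positivity)
        linarith
      have h5 : Y ≤ 4 ^ j := by
        rw [hYd]
        exact pow_le_pow_right₀ (by norm_num) hi1
      have h6 : (2 : ℝ) ^ (a + 1) * 4 ^ j ≤ N := by exact_mod_cast hj1
      have h7 : (2 : ℝ) ^ (a + 1) * Y ≤ 2 ^ (a + 1) * 4 ^ j :=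
        mul_le_mul_of_nonneg_left h5 (by positivity)
      linarith
    exact Nat.floor_le_of_le h3
  -- from the weighted sum to the plain sum
  have hS : SR a φ ψ m r (Y / u) ≤
      2 ^ a / Y * ∑ k ∈ (Icc 1 N).filter (fun k => om k % m = r), (tc c k : ℝ) := by
    unfold SR
    have h3 : ∀ k ∈ (Icc 1 ⌊2 ^ a * (Y / u)⌋₊).filter (fun k => om k % m = r),
        φ (k / (Y / u)) * tp ψ k / k ≤ 2 ^ a / Y * (tc c k : ℝ) := by
      intro k hk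
      rw [Finset.mem_filter, Finset.mem_Icc] at hk
      have hk0 : (0 : ℝ) < k := by exact_mod_cast (by omega : 0 < k)
      by_cases h0 : φ (k / (Y / u)) = 0
      · rw [h0, zero_mul, zero_div]
        positivity
      · have h4 := (hφ.sp _ h0).1
        rw [div_le_div_iff₀ (by positivity) hYu, one_mul] at h4
        have h5 : φ (k / (Y / u)) * tp ψ k / k ≤ 1 * tp ψ k / k :=
          div_le_div_of_nonneg_right (mul_le_mul_of_nonneg_right (hφ.le _) (htp k)) hk0.le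
        refine h5.trans ?_
        rw [one_mul, div_le_iff₀ hk0]
        have h6 : 1 ≤ 2 ^ a / Y * k := by
          rw [div_mul_eq_mul_div, le_div_iff₀ hY0]
          linarith
        calc tp ψ k = 1 * tp ψ k := (one_mul _).symm
          _ ≤ (2 ^ a / Y * k) * tp ψ k := mul_le_mul_of_nonneg_right h6 (htp k)
          _ ≤ (2 ^ a / Y * k) * (tc c k : ℝ) :=
              mul_le_mul_of_nonneg_left (hψup k hk.1.1) (by positivity)
          _ = 2 ^ a / Y * (tc c k : ℝ) * k := by ring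
    refine (Finset.sum_le_sum h3).trans ?_
    rw [← Finset.mul_sum]
    refine mul_le_mul_of_nonneg_left ?_ (by positivity)
    refine Finset.sum_le_sum_of_subset_of_nonneg ?_ fun k _ _ => Nat.cast_nonneg _
    exact Finset.filter_subset_filter _ (Finset.Icc_subset_Icc le_rfl hNle)
  have h8 : c₂ / (4 * m) * Y / 2 ^ a ≤
      ∑ k ∈ (Icc 1 N).filter (fun k => om k % m = r), (tc c k : ℝ) := by
    have h9 := hu3.le.trans hS
    rw [div_mul_eq_mul_div, le_div_iff₀ hY0] at h9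
    rw [div_le_iff₀ (by positivity)]
    linarith
  have h10 : (N : ℝ) ≤ Y * (4 ^ J * (2 ^ (a + 1) * 4)) := by
    have h11 : (N : ℝ) ≤ 2 ^ (a + 1) * 4 ^ (j + 1) := by exact_mod_cast hj2.le
    have h12 : (4 : ℝ) ^ j ≤ Y * 4 ^ J := by
      rw [hYd, ← pow_add]
      exact pow_le_pow_right₀ (by norm_num) hi2
    have h13 : (2 : ℝ) ^ (a + 1) * 4 ^ (j + 1) = 2 ^ (a + 1) * 4 * 4 ^ j := by ring
    rw [h13] at h11
    have h14 : (2 : ℝ) ^ (a + 1) * 4 * 4 ^ j ≤ 2 ^ (a + 1) * 4 * (Y * 4 ^ J) :=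
      mul_le_mul_of_nonneg_left h12 (by positivity)
    linarith
  calc c₂ / (4 * m) / 2 ^ a / (4 ^ J * (2 ^ (a + 1) * 4)) * N ≤
      c₂ / (4 * m) / 2 ^ a / (4 ^ J * (2 ^ (a + 1) * 4)) * (Y * (4 ^ J * (2 ^ (a + 1) * 4))) :=
        mul_le_mul_of_nonneg_left h10 (by positivity)
    _ = c₂ / (4 * m) * Y / 2 ^ a := by field_simp
    _ ≤ _ := h8

end Pool.Agent.Lib.MP_d57abb_nt.AX
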