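import Pool.Agent.Lib.MP_d57abb_nt.TA.Scale

/-!
# A good scale at every level

In `dec` the product of the patch radius and of the level is constant: the size `2 ^ r` of the vectors is fixed. So
for every large `r` there is a `ρ` between `ρ₀` and a constant `J` for which the mutual information at radius `2 ^ ρ` and at the
levels `2 ^ (r - ρ + s + 1)`, `s < n`, is small.
-/

namespace Pool.Agent.Lib.MP_d57abb_nt.AX

open Finset Pool.Agent.Lib.MP_d57abb_nt Pool.Agent.Lib.MP_d57abb_nt.TA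

private theorem ScaleAt_core {C₂ : ℝ} (hC₂ : 0 ≤ C₂) {h w r : ℕ → ℕ → ℝ} {n : ℕ} (hn : 1 ≤ n)
    (H1 : ∀ ρ i, 0 ≤ w ρ i) (H2 : ∀ ρ i, w ρ i ≤ h ρ i) (H3 : ∀ ρ i, h ρ i ≤ C₂ * 4 ^ ρ)
    (H5 : ∀ κ, ∀ τ' : ℝ, 0 < τ' → ∃ i₀, ∀ i, i₀ ≤ i → r κ i ≤ 4 ^ κ * (1 + τ'))
    (H6 : ∀ ρ κ i, 1 ≤ ρ →
      h (ρ + κ) i ≤ r κ i * (2 + h ρ (i + κ) - w ρ (i + κ)) + 4 * ρ * 4 ^ ρ)
    {δ : ℝ} (hδ : 0 < δ) (ρ₀ : ℕ) :
    ∃ J : ℕ, ∃ r₀ : ℕ, ∀ t : ℕ, r₀ ≤ t → ∃ ρ : ℕ, ρ₀ ≤ ρ ∧ ρ ≤ J ∧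
      ∑ s ∈ range n, w ρ (t - ρ + s) ≤ n * (δ * 4 ^ ρ / ρ) := by
  obtain ⟨J, τ, hτ, hJ⟩ := seq_lemma C₂ 6 δ hC₂ (by norm_num) hδ (max ρ₀ 1)
  obtain ⟨τ', hτ'⟩ : ∃ τ' : ℝ, τ' = τ / (2 + C₂) := ⟨_, rfl⟩
  have h2C : 0 < 2 + C₂ := by linarith
  have hτ'0 : 0 < τ' := by
    rw [hτ']
    positivity
  have e1 : τ' * (2 + C₂) = τ := by
    rw [hτ']
    field_simp
  choose f hf using fun κ => H5 κ τ' hτ'0
  obtain ⟨K, hK⟩ : ∃ K : ℕ, K = 2 * Nat.log 2 J + 2 := ⟨_, rfl⟩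
  obtain ⟨i₁, hi₁⟩ : ∃ i₁ : ℕ, i₁ = (range (K + 1)).sup f := ⟨_, rfl⟩
  refine ⟨J, J + K + i₁, fun t ht => ?_⟩
  have hn0 : (0 : ℝ) < n := by exact_mod_cast hn
  have hu0 : ∀ ρ, 0 ≤ (∑ s ∈ range n, h ρ (t - ρ + s)) / (n * 4 ^ ρ) := fun ρ =>
    div_nonneg (Finset.sum_nonneg fun i _ => (H1 ρ _).trans (H2 ρ _)) (by positivity)
  have huM : ∀ ρ, (∑ s ∈ range n, h ρ (t - ρ + s)) / (n * 4 ^ ρ) ≤ C₂ := fun ρ => by
    rw [div_le_iff₀ (by positivity)]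
    refine (Finset.sum_le_sum fun i _ => H3 ρ _).trans ?_
    rw [Finset.sum_const, card_range, nsmul_eq_mul]
    exact le_of_eq (by ring)
  obtain ⟨ρ, h1, h2, h3⟩ := hJ (fun ρ => (∑ s ∈ range n, h ρ (t - ρ + s)) / (n * 4 ^ ρ))
    (fun ρ => (∑ s ∈ range n, w ρ (t - ρ + s)) / (n * 4 ^ ρ)) hu0 huM (by
      intro ρ hρ1 hρ2
      have hρ : 1 ≤ ρ := (le_max_right _ _).trans hρ1
      have hρ0 : (0 : ℝ) < ρ := by exact_mod_cast hρ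
      obtain ⟨κ, hκ⟩ : ∃ κ : ℕ, κ = 2 * Nat.log 2 ρ + 2 := ⟨_, rfl⟩
      have hκK : κ ≤ K := by
        have := Nat.log_mono_right (b := 2) hρ2
        omega
      rw [← hκ]
      have hκ3 : (ρ : ℝ) ^ 3 ≤ 4 ^ κ := by
        have h5 : ρ < 2 ^ (Nat.log 2 ρ + 1) := Nat.lt_pow_succ_log_self (by norm_num) ρ
        have h6 : (ρ : ℝ) ≤ 2 ^ (Nat.log 2 ρ + 1) := by exact_mod_cast h5.le
        have h7 : (1 : ℝ) ≤ ρ := by exact_mod_cast hρ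
        have h8 : (ρ : ℝ) ^ 4 ≤ (2 ^ (Nat.log 2 ρ + 1)) ^ 4 :=
          pow_le_pow_left₀ (by linarith) h6 4
        have h9 : (ρ : ℝ) ^ 3 ≤ (ρ : ℝ) ^ 4 := pow_le_pow_right₀ h7 (by norm_num)
        have h10 : ((2 : ℝ) ^ (Nat.log 2 ρ + 1)) ^ 4 = 4 ^ κ := by
          rw [hκ, show (4 : ℝ) = 2 ^ 2 by norm_num, ← pow_mul, ← pow_mul]
          congr 1
          ring
        rw [h10] at h8
        exact h9.trans h8
      have hr0 : (0 : ℝ) < 4 ^ ρ := by positivity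
      have hk0 : (0 : ℝ) < 4 ^ κ := by positivity
      have h41 : (1 : ℝ) ≤ 4 ^ ρ := one_le_pow₀ (by norm_num)
      -- one level
      have S1 : ∀ s ∈ range n, h (ρ + κ) (t - (ρ + κ) + s) ≤
          4 ^ κ * (2 + h ρ (t - ρ + s) - w ρ (t - ρ + s)) + 4 ^ κ * (τ * 4 ^ ρ) +
            4 * ρ * 4 ^ ρ := by
        intro s _
        have g1 := H6 ρ κ (t - (ρ + κ) + s) hρ
        have g2 : t - (ρ + κ) + s + κ = t - ρ + s := by omega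
        rw [g2] at g1
        have g3 : r κ (t - (ρ + κ) + s) ≤ 4 ^ κ * (1 + τ') := by
          refine hf κ _ ?_
          have : f κ ≤ i₁ := by
            rw [hi₁]
            exact Finset.le_sup (f := f) (Finset.mem_range.2 (by omega))
          omega
        have g4 : 0 ≤ 2 + h ρ (t - ρ + s) - w ρ (t - ρ + s) := by
          have := H2 ρ (t - ρ + s)
          linarith
        have g5 : 2 + h ρ (t - ρ + s) - w ρ (t - ρ + s) ≤ (2 + C₂) * 4 ^ ρ := by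
          have e2 := H3 ρ (t - ρ + s)
          have e3 := H1 ρ (t - ρ + s)
          nlinarith
        have g6 := mul_le_mul_of_nonneg_right g3 g4
        have g7 : 4 ^ κ * τ' * (2 + h ρ (t - ρ + s) - w ρ (t - ρ + s)) ≤
            4 ^ κ * τ' * ((2 + C₂) * 4 ^ ρ) :=
          mul_le_mul_of_nonneg_left g5 (by positivity)
        have g8 : 4 ^ κ * τ' * ((2 + C₂) * 4 ^ ρ) = 4 ^ κ * (τ * 4 ^ ρ) := by
          rw [← e1]
          ring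
        nlinarith
      have S2 := Finset.sum_le_sum S1
      rw [Finset.sum_add_distrib, Finset.sum_add_distrib, Finset.sum_const, Finset.sum_const,
        card_range, nsmul_eq_mul, nsmul_eq_mul, ← Finset.mul_sum, Finset.sum_sub_distrib,
        Finset.sum_add_distrib, Finset.sum_const, card_range, nsmul_eq_mul] at S2
      have S8 : (2 : ℝ) ≤ 4 ^ ρ * (2 / (ρ : ℝ) ^ 2) := by
        have g1 : (ρ : ℝ) ^ 2 ≤ 4 ^ ρ := by
          have g2 : (ρ : ℝ) ≤ 2 ^ ρ := by exact_mod_cast (Nat.lt_two_pow_self (n := ρ)).le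
          calc (ρ : ℝ) ^ 2 ≤ (2 ^ ρ) ^ 2 := pow_le_pow_left₀ hρ0.le g2 2
            _ = 4 ^ ρ := by rw [← pow_mul, mul_comm, pow_mul]; norm_num
        rw [mul_div_assoc', le_div_iff₀ (by positivity)]
        linarith
      have S9 : 4 * (ρ : ℝ) ≤ 4 ^ κ * (4 / (ρ : ℝ) ^ 2) := by
        rw [mul_div_assoc', le_div_iff₀ (by positivity)]
        nlinarith
      show (∑ s ∈ range n, h (ρ + κ) (t - (ρ + κ) + s)) / (n * 4 ^ (ρ + κ)) ≤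
        (∑ s ∈ range n, h ρ (t - ρ + s)) / (n * 4 ^ ρ) -
          (∑ s ∈ range n, w ρ (t - ρ + s)) / (n * 4 ^ ρ) + 6 / (ρ : ℝ) ^ 2 + τ
      obtain ⟨Sh, hSh⟩ : ∃ Sh : ℝ, Sh = ∑ s ∈ range n, h ρ (t - ρ + s) := ⟨_, rfl⟩
      obtain ⟨Sw, hSw⟩ : ∃ Sw : ℝ, Sw = ∑ s ∈ range n, w ρ (t - ρ + s) := ⟨_, rfl⟩
      rw [← hSh, ← hSw] at S2 ⊢
      rw [div_le_iff₀ (by positivity)]
      have g1 : (Sh / (n * 4 ^ ρ) - Sw / (n * 4 ^ ρ) + 6 / (ρ : ℝ) ^ 2 + τ) * (n * 4 ^ (ρ + κ)) =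
          4 ^ κ * (Sh - Sw) + 4 ^ κ * (n * (4 ^ ρ * (2 / (ρ : ℝ) ^ 2))) +
            n * ((4 ^ κ * (4 / (ρ : ℝ) ^ 2)) * 4 ^ ρ) + n * (4 ^ κ * (τ * 4 ^ ρ)) := by
        rw [pow_add]
        field_simp
        ring
      rw [g1]
      have g3 := mul_le_mul_of_nonneg_left (mul_le_mul_of_nonneg_left S8 hn0.le) hk0.le
      have g4 := mul_le_mul_of_nonneg_left (mul_le_mul_of_nonneg_right S9 hr0.le) hn0.le
      nlinarith)
  refine ⟨ρ, (le_max_left _ _).trans h1, h2, ?_⟩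
  have hρ : 1 ≤ ρ := (le_max_right _ _).trans h1
  have hρ0 : (0 : ℝ) < ρ := by exact_mod_cast hρ
  have h3' : (∑ s ∈ range n, w ρ (t - ρ + s)) / (n * 4 ^ ρ) ≤ δ / ρ := h3
  rw [div_le_iff₀ (by positivity)] at h3'
  refine h3'.trans (le_of_eq ?_)
  ring

private theorem ScaleAt_low : ∃ c : ℝ, 0 < c ∧ ∀ A : ℕ, 1 ≤ A →
    c * (A : ℝ) ^ 2 ≤ ((CC A).card : ℝ) := by
  obtain ⟨c, hc, hl⟩ := card_lim
  have h1 : ∀ᶠ A : ℕ in Filter.atTop, c / 2 < ((CC A).card : ℝ) / (A : ℝ) ^ 2 :=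
    hl.eventually (lt_mem_nhds (by linarith))
  obtain ⟨A₀, hA₀⟩ := Filter.eventually_atTop.1 h1
  refine ⟨min (c / 2) (1 / ((A₀ : ℝ) + 1) ^ 2), lt_min (by linarith) (by positivity), ?_⟩
  intro A hA
  have hA0 : (0 : ℝ) < A := by exact_mod_cast hA
  rcases le_total A₀ A with h | h
  · have h2 := hA₀ A h
    rw [lt_div_iff₀ (by positivity)] at h2
    calc min (c / 2) (1 / ((A₀ : ℝ) + 1) ^ 2) * (A : ℝ) ^ 2 ≤ c / 2 * (A : ℝ) ^ 2 :=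
          mul_le_mul_of_nonneg_right (min_le_left _ _) (by positivity)
      _ ≤ _ := h2.le
  · have h2 : (1 : ℝ) ≤ ((CC A).card : ℝ) := by exact_mod_cast card_pos' hA
    have h3 : (A : ℝ) ≤ (A₀ : ℝ) + 1 := by
      have : (A : ℝ) ≤ A₀ := by exact_mod_cast h
      linarith
    calc min (c / 2) (1 / ((A₀ : ℝ) + 1) ^ 2) * (A : ℝ) ^ 2
        ≤ 1 / ((A₀ : ℝ) + 1) ^ 2 * (A : ℝ) ^ 2 :=
          mul_le_mul_of_nonneg_right (min_le_right _ _) (by positivity)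
      _ ≤ 1 := by
          rw [one_div_mul_eq_div, div_le_one (by positivity)]
          exact pow_le_pow_left₀ hA0.le h3 2
      _ ≤ _ := h2

private theorem ScaleAt_ratio {c : ℝ} (hc : 0 < c)
    (h : ∀ A : ℕ, 1 ≤ A → c * (A : ℝ) ^ 2 ≤ ((CC A).card : ℝ)) {k A : ℕ} (hA : 1 ≤ A) :
    ((CC (k * A)).card : ℝ) / ((CC A).card : ℝ) ≤ 1 / c * (k : ℝ) ^ 2 := by
  have hA0 : (0 : ℝ) < A := by exact_mod_cast hA
  have h1 := h A hA
  have h0 : (0 : ℝ) < ((CC A).card : ℝ) := lt_of_lt_of_le (by positivity) h1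
  have h2 : ((CC (k * A)).card : ℝ) ≤ ((k : ℝ) * A) ^ 2 := by exact_mod_cast card_le_sq (k * A)
  rw [div_le_iff₀ h0]
  calc ((CC (k * A)).card : ℝ) ≤ ((k : ℝ) * A) ^ 2 := h2
    _ = 1 / c * (k : ℝ) ^ 2 * (c * (A : ℝ) ^ 2) := by field_simp
    _ ≤ 1 / c * (k : ℝ) ^ 2 * ((CC A).card : ℝ) := mul_le_mul_of_nonneg_left h1 (by positivity)

private theorem ScaleAt_lim {k : ℕ} (hk : 1 ≤ k) {τ' : ℝ} (hτ' : 0 < τ') : ∃ A₀ : ℕ, ∀ A : ℕ,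
    A₀ ≤ A → ((CC (k * A)).card : ℝ) / ((CC A).card : ℝ) ≤ (k : ℝ) ^ 2 * (1 + τ') := by
  obtain ⟨c, hc, hl⟩ := card_lim
  have hk0 : (0 : ℝ) < k := by exact_mod_cast hk
  have h1 : Filter.Tendsto (fun A : ℕ => k * A) Filter.atTop Filter.atTop :=
    Filter.tendsto_id.const_mul_atTop' (by omega)
  have h2 := hl.comp h1
  have h3 := (h2.div hl hc.ne').const_mul ((k : ℝ) ^ 2)
  rw [div_self hc.ne', mul_one] at h3
  have h4 : ∀ᶠ A : ℕ in Filter.atTop, (k : ℝ) ^ 2 * ((((fun A : ℕ => ((CC A).card : ℝ) /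
      (A : ℝ) ^ 2) ∘ fun A : ℕ => k * A) A) / (((CC A).card : ℝ) / (A : ℝ) ^ 2)) <
      (k : ℝ) ^ 2 * (1 + τ') :=
    h3.eventually (gt_mem_nhds (by nlinarith [pow_pos hk0 2]))
  obtain ⟨A₀, hA₀⟩ := Filter.eventually_atTop.1 (h4.and (Filter.eventually_ge_atTop 1))
  refine ⟨A₀, fun A hA => ?_⟩
  obtain ⟨h5, h6⟩ := hA₀ A hA
  have hA0 : (0 : ℝ) < A := by exact_mod_cast h6
  have h7 : (0 : ℝ) < ((CC A).card : ℝ) := by exact_mod_cast card_pos' h6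
  have h8 : (k : ℝ) ^ 2 * ((((fun A : ℕ => ((CC A).card : ℝ) /
      (A : ℝ) ^ 2) ∘ fun A : ℕ => k * A) A) / (((CC A).card : ℝ) / (A : ℝ) ^ 2)) =
      ((CC (k * A)).card : ℝ) / ((CC A).card : ℝ) := by
    simp only [Function.comp]
    push_cast
    field_simp
  rw [h8] at h5
  exact h5.le

private theorem ScaleAt_Y (e ρ A : ℕ) (hρ : 1 ≤ ρ) (hA : 1 ≤ A) :
    Ht (CC A) (Yv (PS (PP e ρ))) ≤ 4 * ρ * 4 ^ ρ := by
  classical
  have hne : (CC A).Nonempty := Finset.card_pos.1 (card_pos' hA)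
  have hSP : ∀ p ∈ PS (PP e ρ), SP p ∧ p ≤ PP e ρ := by
    intro p hp
    unfold PS at hp
    rw [Finset.mem_filter, Finset.mem_Ioc] at hp
    exact ⟨hp.2, hp.1.2⟩
  have h1 := Ht_le_log hne (Yv (PS (PP e ρ)))
    (T := Fintype.piFinset (fun p : PS (PP e ρ) => range ((p : ℕ) + 1))) (by
      intro x _
      rw [Fintype.mem_piFinset]
      intro p
      exact Finset.mem_range.2 (yv_lt (hSP p p.2).1 x))
  refine h1.trans ?_
  have hP : PP e ρ ≤ 4 ^ ρ := by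
    unfold PP
    calc 2 ^ (2 * ρ - e) ≤ 2 ^ (2 * ρ) := Nat.pow_le_pow_right (by norm_num) (Nat.sub_le _ _)
      _ = 4 ^ ρ := by rw [pow_mul]; norm_num
  have hcard : (PS (PP e ρ)).card ≤ 4 ^ ρ := by
    have h2 : (PS (PP e ρ)).card ≤ (Ioc (PP e ρ / 2) (PP e ρ)).card := by
      unfold PS
      exact Finset.card_filter_le _ _
    rw [Nat.card_Ioc] at h2
    omega
  have h3 : (Fintype.piFinset (fun p : PS (PP e ρ) => range ((p : ℕ) + 1))).card ≤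
      (4 ^ (ρ + 1)) ^ (4 ^ ρ) := by
    rw [Fintype.card_piFinset]
    calc ∏ p : PS (PP e ρ), (range ((p : ℕ) + 1)).card ≤ ∏ _p : PS (PP e ρ), 4 ^ (ρ + 1) := by
          refine Finset.prod_le_prod' fun p _ => ?_
          rw [card_range]
          have h4 := (hSP p p.2).2
          have h5 : 1 ≤ 4 ^ ρ := Nat.one_le_pow _ _ (by norm_num)
          rw [pow_succ]
          omega
      _ = (4 ^ (ρ + 1)) ^ (PS (PP e ρ)).card := by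
          rw [Finset.prod_const, Finset.card_univ, Fintype.card_coe]
      _ ≤ (4 ^ (ρ + 1)) ^ (4 ^ ρ) := Nat.pow_le_pow_right (by positivity) hcard
  have h4 : 0 < (Fintype.piFinset (fun p : PS (PP e ρ) => range ((p : ℕ) + 1))).card := by
    rw [Fintype.card_piFinset]
    refine Finset.prod_pos fun p _ => ?_
    rw [card_range]
    omega
  have h5 : Real.log ((Fintype.piFinset (fun p : PS (PP e ρ) => range ((p : ℕ) + 1))).card : ℝ) ≤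
      Real.log (((4 : ℝ) ^ (ρ + 1)) ^ (4 ^ ρ)) := by
    refine Real.log_le_log (by exact_mod_cast h4) ?_
    exact_mod_cast h3
  refine h5.trans ?_
  rw [Real.log_pow, Real.log_pow]
  have h6 : Real.log 4 ≤ 2 := by
    have h7 : Real.log 4 = 2 * Real.log 2 := by
      rw [show (4 : ℝ) = 2 ^ 2 by norm_num, Real.log_pow]
      norm_num
    rw [h7]
    linarith [Real.log_two_lt_d9]
  have h7 : (1 : ℝ) ≤ ρ := by exact_mod_cast hρ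
  have h8 : ((ρ + 1 : ℕ) : ℝ) * Real.log 4 ≤ 4 * ρ := by
    push_cast
    have h9 : 0 ≤ Real.log 4 := Real.log_nonneg (by norm_num)
    nlinarith
  calc ((4 ^ ρ : ℕ) : ℝ) * (((ρ + 1 : ℕ) : ℝ) * Real.log 4) ≤ ((4 ^ ρ : ℕ) : ℝ) * (4 * ρ) :=
        mul_le_mul_of_nonneg_left h8 (by positivity)
    _ = 4 * ρ * 4 ^ ρ := by push_cast; ring

/-- a good scale at every level -/
theorem scale_at {q : ℕ} (hq : 1 ≤ q) (e n : ℕ) (hn : 1 ≤ n) {δ : ℝ} (hδ : 0 < δ) (ρ₀ : ℕ) :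
    ∃ J : ℕ, ∃ r₀ : ℕ, ∀ r : ℕ, r₀ ≤ r → ∃ ρ : ℕ, ρ₀ ≤ ρ ∧ ρ ≤ J ∧
      ∑ s ∈ range n, MI q e ρ (2 ^ (r - ρ + s + 1)) ≤ n * (δ * 4 ^ ρ / ρ) := by
  obtain ⟨c, hc, hlow⟩ := ScaleAt_low
  have hlq : 0 ≤ Real.log q := Real.log_nonneg (by exact_mod_cast hq)
  have hl2 : 0 ≤ Real.log 2 := Real.log_nonneg (by norm_num)
  have h4 : ∀ κ : ℕ, ((2 ^ κ : ℕ) : ℝ) ^ 2 = 4 ^ κ := fun κ => by
    push_cast
    rw [← pow_mul, mul_comm, pow_mul]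
    norm_num
  have hA : ∀ i : ℕ, 1 ≤ 2 ^ (i + 1) := fun i => Nat.one_le_pow _ _ (by norm_num)
  have hmul : ∀ κ i : ℕ, 2 ^ κ * 2 ^ (i + 1) = 2 ^ (i + κ + 1) := fun κ i => by
    rw [← pow_add]
    congr 1
    omega
  refine ScaleAt_core (C₂ := 1 / c * (2 * Real.log 2 + 2 * Real.log q))
    (h := fun ρ i => Ht (CC (2 ^ (i + 1))) (XX q (2 ^ ρ) (2 ^ (i + 1))))
    (w := fun ρ i => MI q e ρ (2 ^ (i + 1)))
    (r := fun κ i => ((CC (2 ^ κ * 2 ^ (i + 1))).card : ℝ) / ((CC (2 ^ (i + 1))).card : ℝ))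
    (by positivity) hn (fun ρ i => MI_nonneg q e ρ _) ?_ ?_ ?_ ?_ hδ ρ₀
  · intro ρ i
    simp only [MI]
    rw [mi_symm]
    have := Hc_nonneg (CC (2 ^ (i + 1))) (XX q (2 ^ ρ) (2 ^ (i + 1))) (Yv (PS (PP e ρ)))
    linarith
  · intro ρ i
    have h5 := XX_le (q := q) (R := 2 ^ ρ) (A := 2 ^ (i + 1)) hq
      (Nat.one_le_pow _ _ (by norm_num)) (hA i)
    refine h5.trans ?_
    have h6 := ScaleAt_ratio hc hlow (k := 2 ^ ρ) (hA i)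
    rw [h4] at h6
    calc _ ≤ 1 / c * 4 ^ ρ * (2 * Real.log 2 + 2 * Real.log q) :=
          mul_le_mul_of_nonneg_right h6 (by positivity)
      _ = _ := by ring
  · intro κ τ' hτ'
    obtain ⟨A₀, hA₀⟩ := ScaleAt_lim (k := 2 ^ κ) (Nat.one_le_pow _ _ (by norm_num)) hτ'
    refine ⟨A₀, fun i hi => ?_⟩
    have h5 : A₀ ≤ 2 ^ (i + 1) := by
      have h6 : i + 1 < 2 ^ (i + 1) := Nat.lt_two_pow_self
      omega
    have h6 := hA₀ _ h5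
    rw [h4] at h6
    exact h6
  · intro ρ κ i hρ
    obtain ⟨yl, yr, hl, hr⟩ := exists_maps (PS (PP e ρ)) (fun p hp => by
      unfold PS at hp
      classical
      exact (Finset.mem_filter.1 hp).2)
    have hdec := dec (q := q) (R := 2 ^ ρ) (k := 2 ^ κ) (A := 2 ^ (i + 1))
      (Nat.one_le_pow _ _ (by norm_num)) (Nat.one_le_pow _ _ (by norm_num)) (hA i) hl hr
    have hY := ScaleAt_Y e ρ (2 ^ (i + 1)) hρ (hA i)
    have hadd := Ht_le_add (CC (2 ^ (i + 1))) (XX q (2 ^ (ρ + κ)) (2 ^ (i + 1)))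
      (Yv (PS (PP e ρ)))
    have hk : 2 ^ κ * 2 ^ ρ = 2 ^ (ρ + κ) := by rw [← pow_add, add_comm]
    rw [hk] at hdec
    have hmi := mi_symm (CC (2 ^ (i + κ + 1))) (Yv (PS (PP e ρ)))
      (XX q (2 ^ ρ) (2 ^ (i + κ + 1)))
    have hr0 : 0 ≤ ((CC (2 ^ κ * 2 ^ (i + 1))).card : ℝ) / ((CC (2 ^ (i + 1))).card : ℝ) := by
      positivity
    have hlog : 2 * Real.log 2 ≤ 2 := by linarith [Real.log_two_lt_d9]
    have hbr : 2 * Real.log 2 + Hc (CC (2 ^ κ * 2 ^ (i + 1)))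
        (XX q (2 ^ ρ) (2 ^ κ * 2 ^ (i + 1))) (Yv (PS (PP e ρ))) ≤
        2 + Ht (CC (2 ^ (i + κ + 1))) (XX q (2 ^ ρ) (2 ^ (i + κ + 1))) -
          MI q e ρ (2 ^ (i + κ + 1)) := by
      rw [hmul, MI]
      linarith
    have h7 := mul_le_mul_of_nonneg_left hbr hr0
    linarith

end Pool.Agent.Lib.MP_d57abb_nt.AX
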