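import Pool.Agent.Lib.MP_d57abb_nt.AS.Defs
import Pool.Agent.Lib.MP_d57abb_nt.TS.Defs

/-!
# Trapezoids
-/

namespace Pool.Agent.Lib.MP_d57abb_nt.AX

open Finset Pool.Agent.Lib.MP_d57abb_nt Pool.Agent.Lib.MP_d57abb_nt.TA Pool.Agent.Lib.MP_d57abb_nt.TZ Pool.Agent.Lib.MP_d57abb_nt.AS

/-- a trapezoid: zero outside `[α, β]`, equal to one on `[α + η, β - η]` -/
noncomputable def tr0 (α β η x : ℝ) : ℝ := max 0 (min 1 (min ((x - α) / η) ((β - x) / η)))

theorem tr0_one {α β η x : ℝ} (hη : 0 < η) (h1 : α + η ≤ x) (h2 : x ≤ β - η) : tr0 α β η x = 1 := by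
  unfold tr0
  have h3 : 1 ≤ (x - α) / η := by
    rw [le_div_iff₀ hη]
    linarith
  have h4 : 1 ≤ (β - x) / η := by
    rw [le_div_iff₀ hη]
    linarith
  rw [min_eq_left (le_min h3 h4), max_eq_right zero_le_one]

theorem tr0_zero {α β η x : ℝ} (hη : 0 < η) (h : x ≤ α ∨ β ≤ x) : tr0 α β η x = 0 := by
  unfold tr0
  apply max_eq_left
  apply (min_le_right _ _).trans
  rcases h with h | h
  · exact (min_le_left _ _).trans (div_nonpos_of_nonpos_of_nonneg (by linarith) hη.le)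
  · exact (min_le_right _ _).trans (div_nonpos_of_nonpos_of_nonneg (by linarith) hη.le)

theorem tr0_nn (α β η x : ℝ) : 0 ≤ tr0 α β η x := le_max_left _ _

theorem tr0_le (α β η x : ℝ) : tr0 α β η x ≤ 1 := max_le zero_le_one (min_le_left _ _)

theorem tr0_lip {α β η : ℝ} (hη : 0 < η) (x y : ℝ) :
    |tr0 α β η x - tr0 α β η y| ≤ 1 / η * |x - y| := by
  have e1 : |(x - α) / η - (y - α) / η| = 1 / η * |x - y| := by
    rw [← sub_div, sub_sub_sub_cancel_right, abs_div, abs_of_pos hη]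
    ring
  have e2 : |(β - x) / η - (β - y) / η| = 1 / η * |x - y| := by
    rw [← sub_div, sub_sub_sub_cancel_left, abs_div, abs_of_pos hη, abs_sub_comm]
    ring
  have h0 : 0 ≤ 1 / η * |x - y| := by positivity
  unfold tr0
  refine (abs_max_sub_max_le_max _ _ _ _).trans (max_le ?_ ?_)
  · rw [sub_self, abs_zero]
    exact h0
  · refine (abs_min_sub_min_le_max _ _ _ _).trans (max_le ?_ ?_)
    · rw [sub_self, abs_zero]
      exact h0
    · exact (abs_min_sub_min_le_max _ _ _ _).trans (max_le e1.le e2.le)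

theorem tr0_pw {α β η : ℝ} (hα : 0 < α) (hη : 0 < η) : ∃ k : ℕ, PW (tr0 α β η) k (1 / η) := by
  obtain ⟨k, hk⟩ := pow_unbounded_of_one_lt (max (1 / α) β) (by norm_num : (1 : ℝ) < 2)
  refine ⟨k, ⟨tr0_nn α β η, tr0_le α β η, fun x hx => ?_, tr0_lip hη⟩⟩
  have h1 : α < x := by
    by_contra h
    exact hx (tr0_zero hη (Or.inl (not_lt.1 h)))
  have h2 : x < β := by
    by_contra h
    exact hx (tr0_zero hη (Or.inr (not_lt.1 h)))
  have h4 : 1 / α ≤ 2 ^ k := (le_max_left _ _).trans hk.le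
  have h5 : β ≤ 2 ^ k := (le_max_right _ _).trans hk.le
  have h3 : (1 : ℝ) / 2 ^ k ≤ α := by
    rw [div_le_iff₀ hα] at h4
    rw [div_le_iff₀ (by positivity)]
    linarith
  exact ⟨by linarith, by linarith⟩

open Classical in
/-- the smooth number of divisors is at least the number of divisors in the plateau -/
theorem tc_le_tp {c₁ α β η : ℝ} (hc₁ : 0 < c₁) (hη : 0 < η) (h1 : α + η ≤ 1 / c₁) (h2 : c₁ ≤ β - η)
    {k : ℕ} (hk : 1 ≤ k) : (tc c₁ k : ℝ) ≤ tp (tr0 α β η) k := by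
  have hk0 : (0 : ℝ) < k := by exact_mod_cast hk
  unfold tc tp
  rw [Finset.card_filter, Nat.cast_sum]
  refine Finset.sum_le_sum fun d _ => ?_
  split_ifs with h
  · have h3 : 1 / c₁ ≤ (d : ℝ) / k := by
      rw [div_le_div_iff₀ hc₁ hk0]
      linarith [h.1]
    have h4 : (d : ℝ) / k ≤ c₁ := by
      rw [div_le_iff₀ hk0]
      exact h.2
    rw [tr0_one hη (by linarith) (by linarith)]
    norm_num
  · rw [Nat.cast_zero]
    exact tr0_nn _ _ _ _

open Classical in
/-- the smooth number of divisors is at most the number of divisors in the support -/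
theorem tp_le_tc {c η : ℝ} (hc : 0 < c) (hη : 0 < η) {k : ℕ} (hk : 1 ≤ k) :
    tp (tr0 (1 / c) c η) k ≤ (tc c k : ℝ) := by
  have hk0 : (0 : ℝ) < k := by exact_mod_cast hk
  unfold tc tp
  rw [Finset.card_filter, Nat.cast_sum]
  refine Finset.sum_le_sum fun d _ => ?_
  split_ifs with h
  · rw [Nat.cast_one]
    exact tr0_le _ _ _ _
  · rw [Nat.cast_zero]
    refine le_of_eq (tr0_zero hη ?_)
    rcases not_and_or.1 h with h1 | h1
    · left
      rw [div_le_div_iff₀ hk0 hc]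
      linarith [not_le.1 h1]
    · right
      rw [le_div_iff₀ hk0]
      exact (not_le.1 h1).le

end Pool.Agent.Lib.MP_d57abb_nt.AX
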